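import Mathlib
import Pool.Agent.Lib_helper21.TR.Machine

/-!
# Abstract deterministic computations and mixing of inputs
-/

set_option linter.unusedSectionVars false

namespace Pool.Agent.HR

open Finset Equiv Pool.Agent.TR

/-- An abstract deterministic computation on families of permutations: the coordinates read in each
of `r` components, and the transcript. -/
structure DS (K U X : Type) [Fintype K] [Fintype U] [DecidableEq K] [DecidableEq U] (r : ℕ) where
  hit : (K → Perm U) → Fin r → Finset (K × U)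
  tr : (K → Perm U) → X
  tg : Finset X
  mem_tg : ∀ z, tr z ∈ tg
  cl : ∀ (sd : K → Bool) (z z' : K → Perm U) (F : Finset (K × U)),
    (∀ i, i ∉ F → val z i = val z' i) → tr z = tr z' → ∀ c : Fin r → Bool,
    (∀ j, c j = true → ∀ i ∈ hit z j, sd i.1 = false → i ∉ F) →
    (∀ j, c j = false → ∀ i ∈ hit z' j, sd i.1 = true → i ∉ F) →
    tr (mix sd z z') = tr z ∧ ∀ j, hit (mix sd z z') j = if c j = true then hit z j else hit z' j

section Hits

variable {K U X : Type} [Fintype K] [Fintype U] [DecidableEq K] [DecidableEq U] {r : ℕ}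

/-- The components in which a coordinate is read. -/
def DS.seg (Y : DS K U X r) (z : K → Perm U) (i : K × U) : Finset (Fin r) :=
  Finset.univ.filter fun j : Fin r => i ∈ Y.hit z j

lemma DS.mem_seg {Y : DS K U X r} {z : K → Perm U} {i : K × U} {j : Fin r} :
    j ∈ Y.seg z i ↔ i ∈ Y.hit z j := by
  simp [DS.seg]

lemma DS.sum_seg_card (Y : DS K U X r) (z : K → Perm U) :
    ∑ i, (Y.seg z i).card = ∑ j, (Y.hit z j).card := by
  have e1 : ∀ i, (Y.seg z i).card = ∑ j : Fin r, if i ∈ Y.hit z j then 1 else 0 := by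
    intro i
    rw [DS.seg, Finset.card_filter]
  simp_rw [e1]
  rw [Finset.sum_comm]
  refine Finset.sum_congr rfl fun j _ => ?_
  simp

variable {g V : ℕ} (Y : DS K U X r) (sd : K → Bool) (k : ℕ) (χ : Fin r → Bool ⊕ Fin g)
  (m : K × U → Fin V)

/-- The class of an input is closed under mixing. -/
lemma closure (z z' : K → Perm U) (F : Finset (K × U))
    (hF : F ⊆ FSet sd k χ m (Y.seg z))
    (hoff : ∀ i, i ∉ F → val z i = val z' i)
    (hbd : Y.tr z = Y.tr z')
    (hP : PSet sd k χ m (Y.seg z) = PSet sd k χ m (Y.seg z'))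
    (hFF : FSet sd k χ m (Y.seg z) = FSet sd k χ m (Y.seg z')) :
    Y.tr (mix sd z z') = Y.tr z ∧
    PSet sd k χ m (Y.seg (mix sd z z')) = PSet sd k χ m (Y.seg z) ∧
    FSet sd k χ m (Y.seg (mix sd z z')) = FSet sd k χ m (Y.seg z) := by
  classical
  have hFz : ∀ i ∈ F, ∀ j : Fin r, i ∈ Y.hit z j → χ j = Sum.inl (sd i.1) := by
    intro i hi j hj
    exact (mem_FSet.1 (hF hi)).1 j (DS.mem_seg.2 hj)
  have hFz' : ∀ i ∈ F, ∀ j : Fin r, i ∈ Y.hit z' j → χ j = Sum.inl (sd i.1) := by
    intro i hi j hj
    exact (mem_FSet.1 (hFF ▸ hF hi)).1 j (DS.mem_seg.2 hj)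
  -- general: any colouring that sends red to `z` and blue to `z'`
  have hgen : ∀ c : Fin r → Bool, (∀ j : Fin r, χ j = Sum.inl true → c j = true) →
      (∀ j : Fin r, χ j = Sum.inl false → c j = false) →
      Y.tr (mix sd z z') = Y.tr z ∧ ∀ j, Y.hit (mix sd z z') j =
        if c j = true then Y.hit z j else Y.hit z' j := by
    intro c hc1 hc2
    refine Y.cl sd z z' F hoff hbd c ?_ ?_
    · intro j hcj i hi hs hiF
      have h3 := hFz i hiF j hi
      rw [hs] at h3
      have := hc2 j h3
      rw [hcj] at this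
      exact absurd this (by decide)
    · intro j hcj i hi hs hiF
      have h3 := hFz' i hiF j hi
      rw [hs] at h3
      have := hc1 j h3
      rw [hcj] at this
      exact absurd this (by decide)
  obtain ⟨ht, a2⟩ := hgen (fun j => decide (χ j ≠ Sum.inl false))
    (fun j hj => by rw [hj]; simp) (fun j hj => by rw [hj]; simp)
  obtain ⟨_, b2⟩ := hgen (fun j => decide (χ j = Sum.inl true))
    (fun j hj => by rw [hj]; simp) (fun j hj => by rw [hj]; simp)
  have red : ∀ j : Fin r, χ j = Sum.inl true → Y.hit (mix sd z z') j = Y.hit z j :=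
    fun j hj => by rw [a2 j, hj]; simp
  have blue : ∀ j : Fin r, χ j = Sum.inl false → Y.hit (mix sd z z') j = Y.hit z' j :=
    fun j hj => by rw [a2 j, hj]; simp
  have grey1 : ∀ j : Fin r, χ j ≠ Sum.inl true → χ j ≠ Sum.inl false →
      Y.hit (mix sd z z') j = Y.hit z j :=
    fun j _ hj' => by rw [a2 j, if_pos (by simpa using hj')]
  have grey2 : ∀ j : Fin r, χ j ≠ Sum.inl true → χ j ≠ Sum.inl false →
      Y.hit (mix sd z z') j = Y.hit z' j :=
    fun j hj _ => by rw [b2 j, if_neg (by simpa using hj)]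
  -- membership of segments
  have sred : ∀ i (j : Fin r), χ j = Sum.inl true →
      (j ∈ Y.seg (mix sd z z') i ↔ j ∈ Y.seg z i) := by
    intro i j hj; rw [DS.mem_seg, DS.mem_seg, red j hj]
  have sblue : ∀ i (j : Fin r), χ j = Sum.inl false →
      (j ∈ Y.seg (mix sd z z') i ↔ j ∈ Y.seg z' i) := by
    intro i j hj; rw [DS.mem_seg, DS.mem_seg, blue j hj]
  have sgrey1 : ∀ i (j : Fin r), χ j ≠ Sum.inl true → χ j ≠ Sum.inl false →
      (j ∈ Y.seg (mix sd z z') i ↔ j ∈ Y.seg z i) := by
    intro i j hj hj'; rw [DS.mem_seg, DS.mem_seg, grey1 j hj hj']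
  have sgrey2 : ∀ i (j : Fin r), χ j ≠ Sum.inl true → χ j ≠ Sum.inl false →
      (j ∈ Y.seg (mix sd z z') i ↔ j ∈ Y.seg z' i) := by
    intro i j hj hj'; rw [DS.mem_seg, DS.mem_seg, grey2 j hj hj']
  have ownred : ∀ i, own χ (Y.seg (mix sd z z') i) true = own χ (Y.seg z i) true := by
    intro i
    unfold own
    congr 1
    ext j
    rw [Finset.mem_filter, Finset.mem_filter]
    exact ⟨fun h => ⟨(sred i j h.2).1 h.1, h.2⟩, fun h => ⟨(sred i j h.2).2 h.1, h.2⟩⟩
  have ownblue : ∀ i, own χ (Y.seg (mix sd z z') i) false = own χ (Y.seg z' i) false := by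
    intro i
    unfold own
    congr 1
    ext j
    rw [Finset.mem_filter, Finset.mem_filter]
    exact ⟨fun h => ⟨(sblue i j h.2).1 h.1, h.2⟩, fun h => ⟨(sblue i j h.2).2 h.1, h.2⟩⟩
  have ng1 : ∀ i, (∀ j ∈ Y.seg (mix sd z z') i, χ j = Sum.inl true ∨ χ j = Sum.inl false) ↔
      (∀ j ∈ Y.seg z i, χ j = Sum.inl true ∨ χ j = Sum.inl false) := by
    intro i
    constructor
    · intro h j hj
      by_contra hcon
      push Not at hcon
      rcases h j ((sgrey1 i j hcon.1 hcon.2).2 hj) with h' | h'
      · exact hcon.1 h'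
      · exact hcon.2 h'
    · intro h j hj
      by_contra hcon
      push Not at hcon
      rcases h j ((sgrey1 i j hcon.1 hcon.2).1 hj) with h' | h'
      · exact hcon.1 h'
      · exact hcon.2 h'
  have ng2 : ∀ i, (∀ j ∈ Y.seg (mix sd z z') i, χ j = Sum.inl true ∨ χ j = Sum.inl false) ↔
      (∀ j ∈ Y.seg z' i, χ j = Sum.inl true ∨ χ j = Sum.inl false) := by
    intro i
    constructor
    · intro h j hj
      by_contra hcon
      push Not at hcon
      rcases h j ((sgrey2 i j hcon.1 hcon.2).2 hj) with h' | h'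
      · exact hcon.1 h'
      · exact hcon.2 h'
    · intro h j hj
      by_contra hcon
      push Not at hcon
      rcases h j ((sgrey2 i j hcon.1 hcon.2).1 hj) with h' | h'
      · exact hcon.1 h'
      · exact hcon.2 h'
  have hPm : PSet sd k χ m (Y.seg (mix sd z z')) = PSet sd k χ m (Y.seg z) := by
    ext i
    cases hs : sd i.1 with
    | true =>
      simp only [TR.PSet, Finset.mem_filter, Finset.mem_univ, true_and, hs]
      rw [ng1, ownred]
    | false =>
      rw [hP]
      simp only [TR.PSet, Finset.mem_filter, Finset.mem_univ, true_and, hs]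
      rw [ng2, ownblue]
  refine ⟨ht, hPm, ?_⟩
  ext i
  cases hs : sd i.1 with
  | true =>
    rw [hFF]
    unfold FSet
    rw [Finset.mem_filter, Finset.mem_filter, hPm, hP, hs]
    refine and_congr_right fun _ => ?_
    constructor
    · intro h j hj hcol
      exact h j ((sblue i j (by simpa using hcol)).2 hj) hcol
    · intro h j hj hcol
      exact h j ((sblue i j (by simpa using hcol)).1 hj) hcol
  | false =>
    unfold FSet
    rw [Finset.mem_filter, Finset.mem_filter, hPm, hs]
    refine and_congr_right fun _ => ?_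
    constructor
    · intro h j hj hcol
      exact h j ((sred i j (by simpa using hcol)).2 hj) hcol
    · intro h j hj hcol
      exact h j ((sred i j (by simpa using hcol)).1 hj) hcol

end Hits

end Pool.Agent.HR
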