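import Mathlib
import Pool.Agent.Lib_helper21.TR.Desc
import Pool.Agent.Lib_helper21.HR.Heavy

/-!
# Summation over all descriptions
-/

set_option linter.unusedSectionVars false

namespace Pool.Agent.HR

open Finset Equiv Pool.Agent.TS Pool.Agent.TR

variable {K U E X : Type} [Fintype K] [Fintype U] [Fintype E] [DecidableEq K] [DecidableEq U]
  [DecidableEq E] (H : BG K E)

variable {r g V : ℕ} (Y : DS K U X r) (Acc : X → Prop) (adj : U → U → Prop) (k f : ℕ)
  (θ : (Fin r → Bool ⊕ Fin g) × (K × U → Fin V)) (D : E × U → Bool)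

/-- The description of an input. -/
noncomputable def dd (z : K → Perm U) : X × Finset (K × U) × Finset (K × U) :=
  (Y.tr z, PP H Y k θ z, FF H Y k θ z)

lemma dsc_iff {z z' : K → Perm U} : dsc H Y k θ z z' ↔ dd H Y k θ z = dd H Y k θ z' := by
  unfold dsc dd
  rw [Prod.mk.injEq, Prod.mk.injEq]

/-- The bound for the number of descriptions. -/
noncomputable def nDesc (f : ℕ) (V : ℝ) (cX cI : ℕ) : ℝ :=
  (cX : ℝ) * (V ^ f * Real.exp (2 * cI / V))

lemma image_card (hV : 1 ≤ (V : ℝ)) [DecidableEq (X × Finset (K × U) × Finset (K × U))] :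
    (((ZT H Y Acc adj k f θ).image (dd H Y k θ)).card : ℝ) ≤
      nDesc f V Y.tg.card (Fintype.card (K × U)) := by
  classical
  have h1 : (ZT H Y Acc adj k f θ).image (dd H Y k θ) ⊆
      Y.tg ×ˢ
        (Finset.univ.filter fun p : Finset (K × U) × Finset (K × U) => p.2 ⊆ p.1 ∧
          p.1.card ≤ f) := by
    intro d hd
    rw [Finset.mem_image] at hd
    obtain ⟨z, hz, rfl⟩ := hd
    rw [mem_ZT] at hz
    rw [Finset.mem_product, Finset.mem_filter]
    exact ⟨Y.mem_tg z, Finset.mem_univ _, FSet_subset, hz.2.1⟩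
  have h2 := Finset.card_le_card h1
  rw [Finset.card_product] at h2
  have h3 : (((ZT H Y Acc adj k f θ).image (dd H Y k θ)).card : ℝ) ≤
      (Y.tg.card : ℝ) * ((Finset.univ.filter fun p : Finset (K × U) × Finset (K × U) =>
        p.2 ⊆ p.1 ∧ p.1.card ≤ f).card : ℝ) := by exact_mod_cast h2
  refine h3.trans ?_
  unfold nDesc
  exact mul_le_mul_of_nonneg_left (card_nested f V hV) (by positivity)

open Classical in
/-- The total number of one-sidedly heavy free coordinates. -/
lemma oheavy_sum (hV : 1 ≤ (V : ℝ)) (Λ : ℝ) (hΛ : 0 < Λ) (hU : 0 < Fintype.card U) (h0 : ℕ)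
    (b : Bool) :
    ∑ z ∈ ZT H Y Acc adj k f θ, (((full H (FF H Y k θ z) D b).filter fun i =>
      OHeavy H Y Acc adj k f θ D Λ b z i).card : ℝ) ≤
      (ZT H Y Acc adj k f θ).card * (h0 + Fintype.card (K × U) / Real.sqrt Λ) +
      nDesc f V Y.tg.card (Fintype.card (K × U)) *
        (f * (2 ^ f * ((Real.exp 1 / Real.sqrt Λ) ^ h0 * Fintype.card (K → Perm U)))) := by
  have hsq : 0 < Real.sqrt Λ := Real.sqrt_pos.2 hΛ
  set Z := ZT H Y Acc adj k f θ with hZ
  set im := Z.image (dd H Y k θ) with him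
  have hmaps : ∀ z ∈ Z, dd H Y k θ z ∈ im := fun z hz => Finset.mem_image_of_mem _ hz
  rw [← Finset.sum_fiberwise_of_maps_to hmaps]
  have hfib : ∀ d ∈ im, ∑ z ∈ Z.filter (fun z => dd H Y k θ z = d),
      (((full H (FF H Y k θ z) D b).filter fun i =>
        OHeavy H Y Acc adj k f θ D Λ b z i).card : ℝ) ≤
      ((Z.filter fun z => dd H Y k θ z = d).card : ℝ) *
        (h0 + Fintype.card (K × U) / Real.sqrt Λ) +
      (f * (2 ^ f * ((Real.exp 1 / Real.sqrt Λ) ^ h0 * Fintype.card (K → Perm U)))) := by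
    intro d hd
    rw [him, Finset.mem_image] at hd
    obtain ⟨z0, hz0, rfl⟩ := hd
    set Zd := Z.filter fun z => dd H Y k θ z = dd H Y k θ z0 with hZd
    set F := full H (FF H Y k θ z0) D b with hF
    have hmem : ∀ z ∈ Zd, FF H Y k θ z = FF H Y k θ z0 ∧ dsc H Y k θ z z0 := by
      intro z hz
      rw [hZd, Finset.mem_filter] at hz
      have := (dsc_iff H Y k θ).2 hz.2
      exact ⟨this.2.2, this⟩
    have hcl : ∀ z ∈ Zd, CC H Y Acc adj k f θ D b z = cl Zd F z := by
      intro z hz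
      ext w
      rw [mem_CC, mem_cl, hZd, Finset.mem_filter, (hmem z hz).1, dsc_iff]
      constructor
      · rintro ⟨h1, h2, h3⟩
        exact ⟨⟨h1, h2.symm.trans (Finset.mem_filter.1 hz).2⟩, h3⟩
      · rintro ⟨⟨h1, h2⟩, h3⟩
        exact ⟨h1, (Finset.mem_filter.1 hz).2.trans h2.symm, h3⟩
    have hcount := total_count Zd F Λ hΛ hU h0
    have hsum : ∑ z ∈ Zd, (((full H (FF H Y k θ z) D b).filter fun i =>
        OHeavy H Y Acc adj k f θ D Λ b z i).card : ℝ) =
        ∑ z ∈ Zd, ((F.filter fun i => hv Zd F Λ z i).card : ℝ) := by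
      refine Finset.sum_congr rfl fun z hz => ?_
      rw [(hmem z hz).1]
      congr 2
      refine Finset.filter_congr fun i _ => ?_
      unfold OHeavy hv
      rw [hcl z hz]
    rw [hsum]
    refine hcount.trans ?_
    have hFf : F.card ≤ f := by
      rw [hZ, mem_ZT] at hz0
      exact (Finset.card_le_card (full_subset H)).trans ((Finset.card_le_card
        FSet_subset).trans hz0.2.1)
    have hFfR : (F.card : ℝ) ≤ f := by exact_mod_cast hFf
    have h2 : (2 : ℝ) ^ F.card ≤ 2 ^ f := pow_le_pow_right₀ (by norm_num) hFf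
    have h3 : (0 : ℝ) ≤ (Real.exp 1 / Real.sqrt Λ) ^ h0 * Fintype.card (K → Perm U) := by
      positivity
    have h4 : (F.card : ℝ) * (2 ^ F.card * ((Real.exp 1 / Real.sqrt Λ) ^ h0 *
        Fintype.card (K → Perm U))) ≤ f * (2 ^ f * ((Real.exp 1 / Real.sqrt Λ) ^ h0 *
        Fintype.card (K → Perm U))) :=
      mul_le_mul hFfR (mul_le_mul_of_nonneg_right h2 h3) (by positivity) (by positivity)
    linarith
  refine (Finset.sum_le_sum hfib).trans ?_
  rw [Finset.sum_add_distrib, ← Finset.sum_mul, Finset.sum_const, nsmul_eq_mul]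
  have h5 : ∑ d ∈ im, ((Z.filter fun z => dd H Y k θ z = d).card : ℝ) = Z.card := by
    rw [Finset.card_eq_sum_card_fiberwise hmaps]
    push_cast
    rfl
  rw [h5]
  have h6 := image_card H Y Acc adj k f θ hV
  have h7 : (0 : ℝ) ≤ f * (2 ^ f * ((Real.exp 1 / Real.sqrt Λ) ^ h0 *
    Fintype.card (K → Perm U))) := by positivity
  have h8 := mul_le_mul_of_nonneg_right h6 h7
  linarith

end Pool.Agent.HR
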