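import Mathlib
import Pool.Agent.Lib_helper21.HM.Count
import Pool.Agent.Lib_helper21.HR.Sys

/-!
# Deterministic machines with a local memory that read permutations
-/

set_option linter.unusedSectionVars false

namespace Pool.Agent.HR

open Finset Equiv Pool.Agent.TR Pool.Agent.HM

/-- Deterministic machines with a local memory. -/
structure DLM (K U : Type) (D : ℕ) (Q Γ : Type) where
  start : Q
  init : Reg D → Γ
  addr : ℕ → Q → Reg D
  ask : ℕ → Q → Γ → Option (K × Bool × U)
  step : ℕ → Q → Γ → Option U → Q × Γ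

section Basic

variable {K U Q Γ : Type} {D : ℕ}

/-- The next configuration. -/
def DLM.nxt (M : DLM K U D Q Γ) (τ : ℕ) (p : Conf D Q Γ) (a : Option U) : Conf D Q Γ :=
  ((M.step τ p.1 (p.2 (M.addr τ p.1)) a).1,
    Function.update p.2 (M.addr τ p.1) (M.step τ p.1 (p.2 (M.addr τ p.1)) a).2)

/-- The query of a configuration. -/
def DLM.askc (M : DLM K U D Q Γ) (τ : ℕ) (p : Conf D Q Γ) : Option (K × Bool × U) :=
  M.ask τ p.1 (p.2 (M.addr τ p.1))

/-- The run. -/
def DLM.run (M : DLM K U D Q Γ) (z : K → Perm U) : ℕ → Conf D Q Γ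
  | 0 => (M.start, M.init)
  | τ + 1 => M.nxt τ (M.run z τ) ((M.askc τ (M.run z τ)).map (qans z))

/-- The underlying address machine. -/
def DLM.lm (M : DLM K U D Q Γ) : LM Unit Unit Unit D Q Γ where
  start _ := True
  init := M.init
  acc _ := True
  addr := M.addr
  ask _ _ _ := none
  step _ _ _ _ _ _ := True

/-- The blocks visited. -/
def DLM.be (M : DLM K U D Q Γ) (b o : ℕ) (z : K → Perm U) : ℕ → Reg D := M.lm.bl b o (M.run z)

lemma run_succ_snd (M : DLM K U D Q Γ) (z : K → Perm U) (τ : ℕ) (y : Reg D)
    (hy : y ≠ M.lm.pos (M.run z) τ) : (M.run z (τ + 1)).2 y = (M.run z τ).2 y := by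
  show Function.update _ _ _ _ = _
  exact Function.update_of_ne hy _ _

lemma run_succ_self (M : DLM K U D Q Γ) (z : K → Perm U) (τ : ℕ) :
    (M.run z (τ + 1)).2 (M.lm.pos (M.run z) τ) = (M.step τ (M.run z τ).1
      ((M.run z τ).2 (M.lm.pos (M.run z) τ)) ((M.askc τ (M.run z τ)).map (qans z))).2 :=
  Function.update_self _ _ _

end Basic

section Comps

variable {D : ℕ}

/-- The components met before time `N`. -/
def comps (β : ℕ → Reg D) (m N : ℕ) : Finset (Reg D × ℕ) := (range N).image (kap β m)

open Classical in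
/-- The index of a component. -/
noncomputable def cix (S : Finset (Reg D × ℕ)) (κ : Reg D × ℕ) : ℕ :=
  if h : κ ∈ S then (S.equivFin ⟨κ, h⟩ : ℕ) else S.card

lemma cix_inj {S : Finset (Reg D × ℕ)} {κ κ' : Reg D × ℕ} (h : κ ∈ S) (h' : κ' ∈ S)
    (he : cix S κ = cix S κ') : κ = κ' := by
  unfold cix at he
  rw [dif_pos h, dif_pos h'] at he
  have := S.equivFin.injective (Fin.ext he)
  exact congrArg Subtype.val this

lemma cix_lt {S : Finset (Reg D × ℕ)} {κ : Reg D × ℕ} (h : κ ∈ S) : cix S κ < S.card := by
  unfold cix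
  rw [dif_pos h]
  exact Fin.is_lt _

lemma kap_mem_comps {β : ℕ → Reg D} {m N τ : ℕ} (h : τ < N) : kap β m τ ∈ comps β m N :=
  Finset.mem_image_of_mem _ (Finset.mem_range.2 h)

lemma comps_congr {β β' : ℕ → Reg D} {m N : ℕ} (h : ∀ τ < N, β τ = β' τ) :
    comps β m N = comps β' m N := by
  unfold comps
  refine Finset.image_congr fun τ hτ => ?_
  exact kap_congr fun σ hσ => h σ (lt_of_le_of_lt hσ (Finset.mem_range.1 hτ))

lemma comps_card_le (β : ℕ → Reg D) (m N : ℕ) : (comps β m N).card ≤ (newTimes β m N).card := by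
  classical
  have h1 : comps β m N ⊆ (newTimes β m N).image (kap β m) := by
    intro κ hκ
    unfold comps at hκ
    rw [Finset.mem_image] at hκ
    obtain ⟨τ, hτ, rfl⟩ := hκ
    rw [Finset.mem_range] at hτ
    rw [Finset.mem_image]
    induction τ with
    | zero => exact ⟨0, by unfold newTimes; simp, rfl⟩
    | succ τ ih =>
      by_cases h : kap β m (τ + 1) = kap β m τ
      · rw [h]; exact ih (by omega)
      · refine ⟨τ + 1, ?_, rfl⟩
        unfold newTimes
        rw [Finset.mem_filter, Finset.mem_range]
        exact ⟨by omega, Or.inr (by simpa using h)⟩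
  exact (Finset.card_le_card h1).trans Finset.card_image_le

/-- The times before `N` spent in the component with index `j`. -/
noncomputable def tim (β : ℕ → Reg D) (m N : ℕ) (j : ℕ) : Finset ℕ :=
  (range N).filter fun τ => cix (comps β m N) (kap β m τ) = j

lemma tim_card (β : ℕ → Reg D) (m N j : ℕ) (hm : 0 < m) : (tim β m N j).card ≤ m := by
  rcases (tim β m N j).eq_empty_or_nonempty with h | ⟨τ0, h0⟩
  · rw [h]; simp
  · unfold tim at h0
    rw [Finset.mem_filter, Finset.mem_range] at h0
    refine le_trans (Finset.card_le_card ?_) (kap_card β m hm N (kap β m τ0))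
    intro τ hτ
    unfold tim at hτ
    rw [Finset.mem_filter, Finset.mem_range] at hτ
    rw [Finset.mem_filter, Finset.mem_range]
    exact ⟨hτ.1, cix_inj (kap_mem_comps hτ.1) (kap_mem_comps h0.1) (hτ.2.trans h0.2.symm)⟩

lemma sum_tim_card (β : ℕ → Reg D) (m N r : ℕ) : ∑ j : Fin r, (tim β m N j).card ≤ N := by
  unfold tim
  simp_rw [Finset.card_filter]
  rw [Finset.sum_comm]
  calc ∑ τ ∈ range N, ∑ j : Fin r, (if cix (comps β m N) (kap β m τ) = j then 1 else 0)
      ≤ ∑ _τ ∈ range N, 1 := by
        refine Finset.sum_le_sum fun τ _ => ?_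
        rw [← Finset.card_filter, Finset.card_le_one]
        intro a ha b hb
        rw [Finset.mem_filter] at ha hb
        exact Fin.ext (ha.2.symm.trans hb.2)
    _ = N := by simp

end Comps

section Hits

variable {K U Q Γ : Type} {D : ℕ} [Fintype K] [Fintype U] [DecidableEq K] [DecidableEq U]

/-- The coordinates read in the component with index `j`. -/
noncomputable def hitD (M : DLM K U D Q Γ) (b o m N : ℕ) (z : K → Perm U) (j : ℕ) :
    Finset (K × U) := by
  classical
  exact Finset.univ.filter fun i => ∃ τ ∈ tim (M.be b o z) m N j, ∃ q,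
    M.askc τ (M.run z τ) = some q ∧ qsrc z q = i

lemma mem_hitD {M : DLM K U D Q Γ} {b o m N : ℕ} {z : K → Perm U} {j : ℕ} {i : K × U} :
    i ∈ hitD M b o m N z j ↔ ∃ τ ∈ tim (M.be b o z) m N j, ∃ q,
      M.askc τ (M.run z τ) = some q ∧ qsrc z q = i := by
  classical
  simp [hitD]

lemma hitD_card (M : DLM K U D Q Γ) (b o m N : ℕ) (z : K → Perm U) (j : ℕ) :
    (hitD M b o m N z j).card ≤ (tim (M.be b o z) m N j).card := by
  classical
  have h1 : ∀ i ∈ hitD M b o m N z j, ∃ τ ∈ tim (M.be b o z) m N j, ∃ q,
      M.askc τ (M.run z τ) = some q ∧ qsrc z q = i := fun i hi => mem_hitD.1 hi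
  choose! f hf using h1
  refine Finset.card_le_card_of_injOn f (fun i hi => (hf i hi).1) ?_
  intro i hi i' hi' hff
  obtain ⟨_, q, hq, hs⟩ := hf i hi
  obtain ⟨_, q', hq', hs'⟩ := hf i' hi'
  rw [hff, hq'] at hq
  obtain rfl := Option.some.inj hq
  rw [← hs, ← hs']

/-- The colouring of the components given by a colouring of the indices. -/
noncomputable def col (S : Finset (Reg D × ℕ)) (r : ℕ) (c : Fin r → Bool) (κ : Reg D × ℕ) : Bool :=
  if h : cix S κ < r then c ⟨cix S κ, h⟩ else true

variable {M : DLM K U D Q Γ} {b o m N r : ℕ} {z z' : K → Perm U}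

/-- The run on a mixed input. -/
lemma run_mix (sd : K → Bool) (F : Finset (K × U)) (hoff : ∀ i, i ∉ F → val z i = val z' i)
    (hβ : ∀ τ ≤ N, M.be b o z τ = M.be b o z' τ)
    (hmk : ∀ τ < N, kap (M.be b o z) m (τ + 1) ≠ kap (M.be b o z) m τ →
      (M.run z (τ + 1)).1 = (M.run z' (τ + 1)).1)
    (hct : ∀ τ < N, ev (M.be b o z) m τ → ∀ y, blk b o y = M.be b o z τ →
      (M.run z (τ + 1)).2 y = (M.run z' (τ + 1)).2 y)
    (hr : (comps (M.be b o z) m N).card ≤ r) (c : Fin r → Bool)
    (h1 : ∀ j, c j = true → ∀ i ∈ hitD M b o m N z j, sd i.1 = false → i ∉ F)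
    (h2 : ∀ j, c j = false → ∀ i ∈ hitD M b o m N z' j, sd i.1 = true → i ∉ F) :
    ∀ τ ≤ N, M.run (mix sd z z') τ =
      mixRun M.lm b o m (col (comps (M.be b o z) m N) r c) (M.run z) (M.run z') τ := by
  have hS' : comps (M.be b o z) m N = comps (M.be b o z') m N :=
    comps_congr fun τ hτ => hβ τ hτ.le
  set χ := col (comps (M.be b o z) m N) r c with hχ
  have hχr : ∀ τ < N, ∃ j : Fin r, cix (comps (M.be b o z) m N) (kap (M.be b o z) m τ) = j ∧
      χ (kap (M.be b o z) m τ) = c j := by
    intro τ hτ
    have h3 := cix_lt (kap_mem_comps (β := M.be b o z) (m := m) hτ)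
    refine ⟨⟨_, lt_of_lt_of_le h3 hr⟩, rfl, ?_⟩
    rw [hχ, col, dif_pos (lt_of_lt_of_le h3 hr)]
  intro τ
  induction τ with
  | zero =>
    intro _
    refine Prod.ext ?_ ?_
    · show M.start = _
      unfold mixRun
      simp only
      split_ifs <;> rfl
    · funext y
      show M.init y = _
      unfold mixRun
      simp only
      split_ifs <;> rfl
  | succ τ ih =>
    intro hτ
    have ih := ih (by omega)
    have hτN : τ < N := by omega
    obtain ⟨j, hj, hχj⟩ := hχr τ hτN
    have n1 := mixRun_next M.lm b o m (M.run z) (M.run z') χ τ (hmk τ hτN)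
    have e2 := mixRun_pos M.lm b o m (M.run z) (M.run z') χ τ
    have hbx : blk b o (M.lm.pos (M.run z) τ) = M.lm.bl b o (M.run z) τ := rfl
    have hbx' : blk b o (M.lm.pos (M.run z') τ) = M.lm.bl b o (M.run z) τ := (hβ τ hτN.le).symm
    have e4 : ∀ y, blk b o y = M.lm.bl b o (M.run z) τ →
        (mixRun M.lm b o m χ (M.run z) (M.run z') (τ + 1)).2 y =
        if χ (kap (M.lm.bl b o (M.run z)) m τ) then (M.run z (τ + 1)).2 y
          else (M.run z' (τ + 1)).2 y := fun y hy =>
      mixRun_content_next M.lm b o m (M.run z) (M.run z') χ τ y hy (fun hev => hct τ hτN hev y hy)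
    have e3 : ∀ y, blk b o y = M.lm.bl b o (M.run z) τ →
        (mixRun M.lm b o m χ (M.run z) (M.run z') τ).2 y =
        if χ (kap (M.lm.bl b o (M.run z)) m τ) then (M.run z τ).2 y
          else (M.run z' τ).2 y := fun y hy =>
      mixRun_content M.lm b o m (M.run z) (M.run z') χ τ y hy
    have e5 : ∀ y, blk b o y ≠ M.lm.bl b o (M.run z) τ →
        (mixRun M.lm b o m χ (M.run z) (M.run z') (τ + 1)).2 y =
        (mixRun M.lm b o m χ (M.run z) (M.run z') τ).2 y := by
      intro y hy
      refine mixRun_content_other M.lm b o m (M.run z) (M.run z') χ τ y hy ?_ ?_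
      · exact run_succ_snd M z τ y (by rintro rfl; exact hy rfl)
      · exact run_succ_snd M z' τ y (by rintro rfl; exact hy hbx')
    by_cases hc : χ (kap (M.lm.bl b o (M.run z)) m τ) = true
    · -- the step follows `z`
      rw [if_pos hc] at e2 n1
      have hcj : c j = true := by rw [← hχj]; exact hc
      have e1 : (mixRun M.lm b o m χ (M.run z) (M.run z') τ).1 = (M.run z τ).1 := by
        unfold mixRun; simp [hc]
      set x := M.lm.pos (M.run z) τ with hx
      have w1 : (M.run (mix sd z z') τ).1 = (M.run z τ).1 := by rw [ih, e1]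
      have w2 : M.addr τ (M.run (mix sd z z') τ).1 = x := by rw [w1]; rfl
      have w3 : (M.run (mix sd z z') τ).2 x = (M.run z τ).2 x := by
        rw [ih, e3 x hbx, if_pos hc]
      have w4 : M.askc τ (M.run (mix sd z z') τ) = M.askc τ (M.run z τ) := by
        unfold DLM.askc
        rw [w2, w3, w1]
        rfl
      have w5 : (M.askc τ (M.run (mix sd z z') τ)).map (qans (mix sd z z')) =
          (M.askc τ (M.run z τ)).map (qans z) := by
        rw [w4]
        rcases hq : M.askc τ (M.run z τ) with _ | q
        · rfl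
        · simp only [Option.map_some]
          congr 1
          refine (q_congr z (mix sd z z') q ?_).1
          cases hs : sd (qsrc z q).1 with
          | true => exact val_mix_true hs
          | false =>
            rw [val_mix_false hs]
            refine (hoff _ (h1 j hcj _ (mem_hitD.2 ⟨τ, ?_, q, hq, rfl⟩) hs)).symm
            exact Finset.mem_filter.2 ⟨Finset.mem_range.2 hτN, hj⟩
      have w6 : M.step τ (M.run (mix sd z z') τ).1 ((M.run (mix sd z z') τ).2
          (M.addr τ (M.run (mix sd z z') τ).1)) ((M.askc τ (M.run (mix sd z z') τ)).map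
            (qans (mix sd z z'))) = M.step τ (M.run z τ).1 ((M.run z τ).2 x)
          ((M.askc τ (M.run z τ)).map (qans z)) := by
        rw [w5, w2, w3, w1]
      refine Prod.ext ?_ ?_
      · rw [n1]
        show (M.step τ (M.run (mix sd z z') τ).1 ((M.run (mix sd z z') τ).2
          (M.addr τ (M.run (mix sd z z') τ).1)) ((M.askc τ (M.run (mix sd z z') τ)).map
            (qans (mix sd z z')))).1 = _
        rw [w6]
        rfl
      · funext y
        show Function.update (M.run (mix sd z z') τ).2 (M.addr τ (M.run (mix sd z z') τ).1)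
          (M.step τ (M.run (mix sd z z') τ).1 ((M.run (mix sd z z') τ).2
          (M.addr τ (M.run (mix sd z z') τ).1)) ((M.askc τ (M.run (mix sd z z') τ)).map
            (qans (mix sd z z')))).2 y = _
        rw [w6, w2]
        by_cases hy : blk b o y = M.lm.bl b o (M.run z) τ
        · rw [e4 y hy, if_pos hc]
          by_cases hyx : y = x
          · rw [hyx, Function.update_self, hx, run_succ_self]
          · rw [Function.update_of_ne hyx, ih, e3 y hy, if_pos hc]
            exact (run_succ_snd M z τ y hyx).symm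
        · have hyx : y ≠ x := by rintro rfl; exact hy rfl
          rw [Function.update_of_ne hyx, e5 y hy, ih]
    · -- the step follows `z'`
      rw [if_neg hc] at e2 n1
      have hcj : c j = false := by
        rw [← hχj]
        exact Bool.eq_false_iff.2 hc
      have e1 : (mixRun M.lm b o m χ (M.run z) (M.run z') τ).1 = (M.run z' τ).1 := by
        unfold mixRun; simp [hc]
      set x := M.lm.pos (M.run z') τ with hx
      have w1 : (M.run (mix sd z z') τ).1 = (M.run z' τ).1 := by rw [ih, e1]
      have w2 : M.addr τ (M.run (mix sd z z') τ).1 = x := by rw [w1]; rfl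
      have w3 : (M.run (mix sd z z') τ).2 x = (M.run z' τ).2 x := by
        rw [ih, e3 x hbx', if_neg hc]
      have w4 : M.askc τ (M.run (mix sd z z') τ) = M.askc τ (M.run z' τ) := by
        unfold DLM.askc
        rw [w2, w3, w1]
        rfl
      have w5 : (M.askc τ (M.run (mix sd z z') τ)).map (qans (mix sd z z')) =
          (M.askc τ (M.run z' τ)).map (qans z') := by
        rw [w4]
        rcases hq : M.askc τ (M.run z' τ) with _ | q
        · rfl
        · simp only [Option.map_some]
          congr 1
          refine (q_congr z' (mix sd z z') q ?_).1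
          cases hs : sd (qsrc z' q).1 with
          | false => exact val_mix_false hs
          | true =>
            rw [val_mix_true hs]
            refine hoff _ (h2 j hcj _ (mem_hitD.2 ⟨τ, ?_, q, hq, rfl⟩) hs)
            refine Finset.mem_filter.2 ⟨Finset.mem_range.2 hτN, ?_⟩
            rw [← hS', ← kap_congr (fun σ hσ => hβ σ (by omega))]
            exact hj
      have w6 : M.step τ (M.run (mix sd z z') τ).1 ((M.run (mix sd z z') τ).2
          (M.addr τ (M.run (mix sd z z') τ).1)) ((M.askc τ (M.run (mix sd z z') τ)).map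
            (qans (mix sd z z'))) = M.step τ (M.run z' τ).1 ((M.run z' τ).2 x)
          ((M.askc τ (M.run z' τ)).map (qans z')) := by
        rw [w5, w2, w3, w1]
      refine Prod.ext ?_ ?_
      · rw [n1]
        show (M.step τ (M.run (mix sd z z') τ).1 ((M.run (mix sd z z') τ).2
          (M.addr τ (M.run (mix sd z z') τ).1)) ((M.askc τ (M.run (mix sd z z') τ)).map
            (qans (mix sd z z')))).1 = _
        rw [w6]
        rfl
      · funext y
        show Function.update (M.run (mix sd z z') τ).2 (M.addr τ (M.run (mix sd z z') τ).1)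
          (M.step τ (M.run (mix sd z z') τ).1 ((M.run (mix sd z z') τ).2
          (M.addr τ (M.run (mix sd z z') τ).1)) ((M.askc τ (M.run (mix sd z z') τ)).map
            (qans (mix sd z z')))).2 y = _
        rw [w6, w2]
        by_cases hy : blk b o y = M.lm.bl b o (M.run z) τ
        · rw [e4 y hy, if_neg hc]
          by_cases hyx : y = x
          · rw [hyx, Function.update_self, hx, run_succ_self]
          · rw [Function.update_of_ne hyx, ih, e3 y hy, if_neg hc]
            exact (run_succ_snd M z' τ y hyx).symm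
        · have hyx : y ≠ x := by rintro rfl; exact hy hbx'
          rw [Function.update_of_ne hyx, e5 y hy, ih]

end Hits

end Pool.Agent.HR
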