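import Mathlib
import Pool.Agent.Lib_helper21.HR.DLM

/-!
# Machines with a local memory as abstract computations
-/

set_option linter.unusedSectionVars false

namespace Pool.Agent.HR

open Finset Equiv Pool.Agent.TR Pool.Agent.HM

section Inst

variable {K U Q Γ : Type} {D : ℕ} [Fintype K] [Fintype U] [DecidableEq K] [DecidableEq U]
  [DecidableEq Q] [DecidableEq Γ]

/-- The contents of the block at the ends of the windows. -/
def evs (M : DLM K U D Q Γ) (b o m N : ℕ) (z : K → Perm U) :
    Finset (ℕ × ((Fin D → Fin b) → Γ)) :=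
  ((range N).filter (ev (M.be b o z) m)).image fun τ =>
    (τ, fun u => (M.run z (τ + 1)).2 (absReg b o (M.be b o z τ) u))

/-- The transcript. -/
def trD (M : DLM K U D Q Γ) (b o m N : ℕ) (z : K → Perm U) :
    Finset (ℕ × Q × Bool) × Finset (ℕ × ((Fin D → Fin b) → Γ)) × Q :=
  (marks M.lm b o m N (fun _ => true) (M.run z), evs M b o m N z, (M.run z N).1)

variable {M : DLM K U D Q Γ} {b o m N r : ℕ} {z z' : K → Perm U}

/-- Consequences of equal transcripts. -/
lemma trD_eq (hb : 0 < b) (h : trD M b o m N z = trD M b o m N z') :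
    (∀ τ ≤ N, M.be b o z τ = M.be b o z' τ) ∧
    (∀ τ < N, kap (M.be b o z) m (τ + 1) ≠ kap (M.be b o z) m τ →
      (M.run z (τ + 1)).1 = (M.run z' (τ + 1)).1) ∧
    (∀ τ < N, ev (M.be b o z) m τ → ∀ y, blk b o y = M.be b o z τ →
      (M.run z (τ + 1)).2 y = (M.run z' (τ + 1)).2 y) ∧
    (M.run z N).1 = (M.run z' N).1 := by
  simp only [trD, Prod.mk.injEq] at h
  obtain ⟨h1, h2, h3⟩ := h
  obtain ⟨m1, m2, _⟩ := marks_eq h1
  refine ⟨m1, m2, ?_, h3⟩
  intro τ hτ hev y hy
  have h4 : (τ, fun u => (M.run z (τ + 1)).2 (absReg b o (M.be b o z τ) u)) ∈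
      evs M b o m N z :=
    Finset.mem_image_of_mem _ (Finset.mem_filter.2 ⟨Finset.mem_range.2 hτ, hev⟩)
  rw [h2, evs, Finset.mem_image] at h4
  obtain ⟨σ, _, hσ⟩ := h4
  simp only [Prod.mk.injEq] at hσ
  obtain ⟨rfl, h5⟩ := hσ
  have h6 := congrFun h5 (place b o hb y)
  have m1' : M.be b o z σ = M.be b o z' σ := m1 σ hτ.le
  simp only [← m1', ← hy, absReg_place] at h6
  exact h6.symm

lemma newTimes_congr {β β' : ℕ → Reg D} (h : ∀ τ ≤ N, β τ = β' τ) :
    newTimes β m N = newTimes β' m N := by
  unfold newTimes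
  refine Finset.filter_congr fun τ hτ => ?_
  rw [Finset.mem_range] at hτ
  rw [kap_congr (β := β) (β' := β') fun σ hσ => h σ (by omega),
    kap_congr (β := β) (β' := β') (τ := τ - 1) fun σ hσ => h σ (by omega)]

/-- The class of a transcript is closed under mixing. -/
lemma trD_cl (hb : 0 < b) (hr : ∀ z, (comps (M.be b o z) m N).card ≤ r)
    (sd : K → Bool) (z z' : K → Perm U) (F : Finset (K × U))
    (hoff : ∀ i, i ∉ F → val z i = val z' i) (h : trD M b o m N z = trD M b o m N z')
    (c : Fin r → Bool)
    (h1 : ∀ j, c j = true → ∀ i ∈ hitD M b o m N z j, sd i.1 = false → i ∉ F)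
    (h2 : ∀ j, c j = false → ∀ i ∈ hitD M b o m N z' j, sd i.1 = true → i ∉ F) :
    trD M b o m N (mix sd z z') = trD M b o m N z ∧ ∀ j : Fin r,
      hitD M b o m N (mix sd z z') j =
        if c j = true then hitD M b o m N z j else hitD M b o m N z' j := by
  obtain ⟨t1, t2, t3, t4⟩ := trD_eq hb h
  have hrun := run_mix sd F hoff t1 t2 t3 (hr z) c h1 h2
  set χ := col (comps (M.be b o z) m N) r c with hχ
  have hpos : ∀ τ ≤ N, M.lm.pos (M.run (mix sd z z')) τ =
      if χ (kap (M.be b o z) m τ) then M.lm.pos (M.run z) τ else M.lm.pos (M.run z') τ := by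
    intro τ hτ
    have e1 := mixRun_pos M.lm b o m (M.run z) (M.run z') χ τ
    have e2 : M.lm.pos (M.run (mix sd z z')) τ =
        M.lm.pos (mixRun M.lm b o m χ (M.run z) (M.run z')) τ := by
      unfold LM.pos
      rw [hrun τ hτ]
    rw [e2, e1]
    rfl
  have hbe : ∀ τ ≤ N, M.be b o (mix sd z z') τ = M.be b o z τ := by
    intro τ hτ
    show blk b o (M.lm.pos (M.run (mix sd z z')) τ) = _
    rw [hpos τ hτ]
    split_ifs
    · rfl
    · exact (t1 τ hτ).symm
  have hbe' : ∀ τ ≤ N, M.be b o (mix sd z z') τ = M.be b o z' τ :=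
    fun τ hτ => (hbe τ hτ).trans (t1 τ hτ)
  have hS : comps (M.be b o (mix sd z z')) m N = comps (M.be b o z) m N :=
    comps_congr fun τ hτ => hbe τ hτ.le
  have hS' : comps (M.be b o z) m N = comps (M.be b o z') m N :=
    comps_congr fun τ hτ => t1 τ hτ.le
  have hst : ∀ τ ≤ N, (M.run (mix sd z z') τ).1 =
      if χ (kap (M.be b o z) m τ) then (M.run z τ).1 else (M.run z' τ).1 := by
    intro τ hτ
    rw [hrun τ hτ]
    rfl
  refine ⟨?_, ?_⟩
  · unfold trD
    refine Prod.ext ?_ (Prod.ext ?_ ?_)
    · show marks M.lm b o m N (fun _ => true) (M.run (mix sd z z')) =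
        marks M.lm b o m N (fun _ => true) (M.run z)
      unfold marks
      rw [newTimes_congr (β := M.lm.bl b o (M.run (mix sd z z'))) (β' := M.lm.bl b o (M.run z))
        hbe]
      refine Finset.image_congr fun τ hτ => ?_
      rw [Finset.mem_coe, newTimes, Finset.mem_filter, Finset.mem_range] at hτ
      simp only [Prod.mk.injEq, true_and, and_true]
      rw [hst τ (by omega)]
      have : (M.run z τ).1 = (M.run z' τ).1 := by
        rcases hτ.2 with h0 | h0
        · rw [h0]; rfl
        · rcases Nat.eq_zero_or_pos τ with h0' | h0'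
          · rw [h0']; rfl
          · obtain ⟨σ, rfl⟩ := Nat.exists_eq_succ_of_ne_zero h0'.ne'
            exact t2 σ (by omega) h0
      rw [this]
      simp
    · show evs M b o m N (mix sd z z') = evs M b o m N z
      unfold evs
      have e1 : (range N).filter (ev (M.be b o (mix sd z z')) m) =
          (range N).filter (ev (M.be b o z) m) := by
        refine Finset.filter_congr fun τ hτ => ?_
        rw [Finset.mem_range] at hτ
        exact ev_congr fun σ hσ => hbe σ (by omega)
      rw [e1]
      refine Finset.image_congr fun τ hτ => ?_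
      rw [Finset.mem_coe, Finset.mem_filter, Finset.mem_range] at hτ
      simp only [Prod.mk.injEq, true_and]
      funext u
      rw [hbe τ hτ.1.le, hrun (τ + 1) hτ.1]
      have hblk : blk b o (absReg b o (M.be b o z τ) u) = M.be b o z τ := by
        funext i
        simp only [blk, absReg]
        have hb' : (0 : ℤ) < b := by exact_mod_cast hb
        have e : M.be b o z τ i * b + ((u i : ℕ) : ℤ) - o + o =
          ((u i : ℕ) : ℤ) + b * M.be b o z τ i := by ring
        rw [e, Int.add_mul_ediv_left _ _ hb'.ne',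
          Int.ediv_eq_zero_of_lt (Int.natCast_nonneg _) (by exact_mod_cast (u i).2), zero_add]
      have e4 := mixRun_content_next M.lm b o m (M.run z) (M.run z') χ τ _ hblk
        (fun hev => t3 τ hτ.1 hev _ hblk)
      rw [e4, ← t3 τ hτ.1 hτ.2 _ hblk]
      simp
    · show (M.run (mix sd z z') N).1 = (M.run z N).1
      rw [hst N le_rfl, ← t4]
      simp
  · intro j
    have hSlt : ∀ τ < N, cix (comps (M.be b o z) m N) (kap (M.be b o z) m τ) < r := fun τ hτ =>
      lt_of_lt_of_le (cix_lt (kap_mem_comps hτ)) (hr z)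
    have htim : tim (M.be b o (mix sd z z')) m N j = tim (M.be b o z) m N j := by
      unfold tim
      rw [hS]
      refine Finset.filter_congr fun τ hτ => ?_
      rw [Finset.mem_range] at hτ
      rw [kap_congr fun σ hσ => hbe σ (by omega)]
    have htim' : tim (M.be b o (mix sd z z')) m N j = tim (M.be b o z') m N j := by
      rw [htim]
      unfold tim
      rw [hS']
      refine Finset.filter_congr fun τ hτ => ?_
      rw [Finset.mem_range] at hτ
      rw [kap_congr fun σ hσ => t1 σ (by omega)]
    have hcol : ∀ τ ∈ tim (M.be b o z) m N j, χ (kap (M.be b o z) m τ) = c j := by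
      intro τ hτ
      unfold tim at hτ
      rw [Finset.mem_filter, Finset.mem_range] at hτ
      rw [hχ, col, dif_pos (hSlt τ hτ.1)]
      congr 1
      exact Fin.ext hτ.2
    have hask : ∀ τ ∈ tim (M.be b o z) m N j,
        M.askc τ (M.run (mix sd z z') τ) =
          if c j then M.askc τ (M.run z τ) else M.askc τ (M.run z' τ) := by
      intro τ hτ
      have hτN : τ < N := by
        unfold tim at hτ
        rw [Finset.mem_filter, Finset.mem_range] at hτ
        exact hτ.1
      have hc := hcol τ hτ
      have p1 : M.addr τ (M.run (mix sd z z') τ).1 = M.lm.pos (M.run (mix sd z z')) τ := rfl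
      unfold DLM.askc
      rw [p1, hpos τ hτN.le, hst τ hτN.le, hc]
      cases hcj : c j with
      | true =>
        simp only [if_true]
        have e3 := mixRun_content M.lm b o m (M.run z) (M.run z') χ τ (M.lm.pos (M.run z) τ) rfl
        have e3' : (M.run (mix sd z z') τ).2 (M.lm.pos (M.run z) τ) =
            (M.run z τ).2 (M.lm.pos (M.run z) τ) := by
          rw [hrun τ hτN.le, e3, if_pos (by rw [← hcj]; exact hc)]
        rw [e3']
        rfl
      | false =>
        simp only [Bool.false_eq_true, if_false]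
        have e3 := mixRun_content M.lm b o m (M.run z) (M.run z') χ τ (M.lm.pos (M.run z') τ)
          (t1 τ hτN.le).symm
        have e3' : (M.run (mix sd z z') τ).2 (M.lm.pos (M.run z') τ) =
            (M.run z' τ).2 (M.lm.pos (M.run z') τ) := by
          rw [hrun τ hτN.le, e3, if_neg]
          intro h0
          have h0' : c j = true := hc.symm.trans h0
          rw [hcj] at h0'
          exact absurd h0' (by decide)
        rw [e3']
        rfl
    cases hcj : c j with
    | true =>
      rw [if_pos rfl]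
      ext i
      rw [mem_hitD, mem_hitD, htim]
      refine exists_congr fun τ => and_congr_right fun hτ => exists_congr fun q => ?_
      rw [hask τ hτ, hcj, if_pos rfl]
      refine and_congr_right fun hq => ?_
      rw [(q_congr z (mix sd z z') q ?_).2]
      cases hs : sd (qsrc z q).1 with
      | true => exact val_mix_true hs
      | false =>
        rw [val_mix_false hs]
        exact (hoff _ (h1 j hcj _ (mem_hitD.2 ⟨τ, hτ, q, hq, rfl⟩) hs)).symm
    | false =>
      rw [if_neg (by decide)]
      ext i
      rw [mem_hitD, mem_hitD, ← htim', htim]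
      refine exists_congr fun τ => and_congr_right fun hτ => exists_congr fun q => ?_
      rw [hask τ hτ, hcj, if_neg (by decide)]
      refine and_congr_right fun hq => ?_
      rw [(q_congr z' (mix sd z z') q ?_).2]
      cases hs : sd (qsrc z' q).1 with
      | false => exact val_mix_false hs
      | true =>
        rw [val_mix_true hs]
        refine hoff _ (h2 j hcj _ (mem_hitD.2 ⟨τ, ?_, q, hq, rfl⟩) hs)
        rw [← htim', htim]
        exact hτ

variable [Fintype Q] [Fintype Γ]

/-- The set of all transcripts. -/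
def tgD (D : ℕ) (Q Γ : Type) [DecidableEq Q] [DecidableEq Γ] [Fintype Q] [Fintype Γ]
    (b N V R : ℕ) : Finset (Finset (ℕ × Q × Bool) × Finset (ℕ × ((Fin D → Fin b) → Γ)) × Q) :=
  smallSets (range (N + 1) ×ˢ ((Finset.univ : Finset Q) ×ˢ (Finset.univ : Finset Bool))) V ×ˢ
    (smallSets (range N ×ˢ (Finset.univ : Finset ((Fin D → Fin b) → Γ))) R ×ˢ
      (Finset.univ : Finset Q))

lemma tgD_card (b N V R : ℕ) : (tgD D Q Γ b N V R).card ≤
    ((N + 1) * (Fintype.card Q * 2) + 1) ^ V *
      ((N * Fintype.card Γ ^ b ^ D + 1) ^ R * Fintype.card Q) := by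
  unfold tgD
  rw [Finset.card_product, Finset.card_product, Finset.card_univ]
  have h1 := smallSets_card (range (N + 1) ×ˢ ((Finset.univ : Finset Q) ×ˢ
    (Finset.univ : Finset Bool))) V
  have h2 := smallSets_card (range N ×ˢ (Finset.univ : Finset ((Fin D → Fin b) → Γ))) R
  simp only [Finset.card_product, Finset.card_range, Finset.card_univ, Fintype.card_fun,
    Fintype.card_fin, Fintype.card_bool] at h1 h2
  exact Nat.mul_le_mul h1 (Nat.mul_le_mul_right _ h2)

/-- The abstract computation of a machine. -/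
noncomputable def theDS (M : DLM K U D Q Γ) (b o m N r V R : ℕ) (hb : 0 < b)
    (hr : ∀ z, (comps (M.be b o z) m N).card ≤ r)
    (hV : ∀ z, ((range N).filter fun τ => M.be b o z (τ + 1) ≠ M.be b o z τ).card +
      ((range N).filter (ev (M.be b o z) m)).card + 1 ≤ V)
    (hR : ∀ z, ((range N).filter (ev (M.be b o z) m)).card ≤ R) :
    DS K U (Finset (ℕ × Q × Bool) × Finset (ℕ × ((Fin D → Fin b) → Γ)) × Q) r where
  hit z j := hitD M b o m N z j
  tr := trD M b o m N
  tg := tgD D Q Γ b N V R
  mem_tg z := by
    unfold tgD trD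
    rw [Finset.mem_product, Finset.mem_product, mem_smallSets, mem_smallSets]
    refine ⟨⟨marks_mem M.lm b o m _ _ le_rfl, (marks_card M.lm b o m N _ _).trans (hV z)⟩,
      ⟨?_, Finset.card_image_le.trans (hR z)⟩, Finset.mem_univ _⟩
    intro x hx
    simp only [evs, Finset.mem_image] at hx
    obtain ⟨τ, hτ, rfl⟩ := hx
    rw [Finset.mem_filter] at hτ
    rw [Finset.mem_product]
    exact ⟨hτ.1, Finset.mem_univ _⟩
  cl sd z z' F hoff h c h1 h2 := trD_cl hb hr sd z z' F hoff h c h1 h2

end Inst

end Pool.Agent.HR
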