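import Mathlib
import Pool.Agent.Lib_helper21.HR.Inst

/-!
# Machines stopped after too many block changes
-/

set_option linter.unusedSectionVars false

namespace Pool.Agent.HR

open Finset Equiv Pool.Agent.TR Pool.Agent.HM

section Cap

variable {K U Q Γ : Type} {D : ℕ}

/-- The number of block changes before time `τ`. -/
def nch (β : ℕ → Reg D) (τ : ℕ) : ℕ := ((range τ).filter fun σ => β (σ + 1) ≠ β σ).card

lemma nch_succ (β : ℕ → Reg D) (τ : ℕ) :
    nch β (τ + 1) = nch β τ + if β (τ + 1) ≠ β τ then 1 else 0 := by
  unfold nch
  rw [Finset.range_add_one, Finset.filter_insert]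
  split_ifs with h
  · rw [Finset.card_insert_of_notMem (by simp)]
  · simp

lemma nch_mono (β : ℕ → Reg D) : Monotone (nch β) := by
  refine monotone_nat_of_le_succ fun τ => ?_
  rw [nch_succ]
  omega

/-- The next state of the stopped machine. -/
def capNext (M : DLM K U D Q Γ) (b o c τ : ℕ) (i : Fin (c + 1)) (x x' : Q) :
    Option (Fin (c + 1) × Q) :=
  if blk b o (M.addr (τ + 1) x') = blk b o (M.addr τ x) then some (i, x')
  else if h : (i : ℕ) + 1 < c + 1 then some (⟨i + 1, h⟩, x') else none

/-- The machine stopped when more than `c` block changes are made. -/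
def cap (M : DLM K U D Q Γ) (b o c : ℕ) : DLM K U D (Option (Fin (c + 1) × Q)) Γ where
  start := some (0, M.start)
  init := M.init
  addr τ s := match s with
    | none => fun _ => 0
    | some (_, x) => M.addr τ x
  ask τ s γ := match s with
    | none => none
    | some (_, x) => M.ask τ x γ
  step τ s γ a := match s with
    | none => (none, γ)
    | some (i, x) => (capNext M b o c τ i x (M.step τ x γ a).1, (M.step τ x γ a).2)

variable (M : DLM K U D Q Γ) (b o c : ℕ) (z : K → Perm U)

lemma cap_none (τ : ℕ) (h : ((cap M b o c).run z τ).1 = none) :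
    ((cap M b o c).run z (τ + 1)).1 = none := by
  show ((cap M b o c).nxt τ ((cap M b o c).run z τ) _).1 = none
  unfold DLM.nxt
  rw [h]
  rfl

/-- The stopped machine makes few block changes. -/
lemma cap_nch (τ : ℕ) :
    (∀ i x, ((cap M b o c).run z τ).1 = some (i, x) → nch ((cap M b o c).be b o z) τ = i) ∧
    (((cap M b o c).run z τ).1 = none → nch ((cap M b o c).be b o z) τ ≤ c + 1) := by
  induction τ with
  | zero =>
    refine ⟨?_, ?_⟩
    · intro i x h
      have : (some (0, M.start) : Option (Fin (c + 1) × Q)) = some (i, x) := h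
      simp only [Option.some.injEq, Prod.mk.injEq] at this
      rw [← this.1]
      simp [nch]
    · intro _; simp [nch]
  | succ τ ih =>
    rcases hs : ((cap M b o c).run z τ).1 with _ | ⟨i, x⟩
    · have h1 := cap_none M b o c z τ hs
      refine ⟨fun i x h => by rw [h1] at h; exact absurd h (by simp), fun _ => ?_⟩
      rw [nch_succ]
      have e1 : (cap M b o c).be b o z (τ + 1) = (cap M b o c).be b o z τ := by
        show blk b o ((cap M b o c).addr (τ + 1) ((cap M b o c).run z (τ + 1)).1) =
          blk b o ((cap M b o c).addr τ ((cap M b o c).run z τ).1)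
        rw [h1, hs]
        rfl
      rw [e1]
      simpa using ih.2 hs
    · have hnch := ih.1 i x hs
      obtain ⟨x', hx'⟩ : ∃ x', ((cap M b o c).run z (τ + 1)).1 = capNext M b o c τ i x x' := by
        refine ⟨(M.step τ x (((cap M b o c).run z τ).2 (M.addr τ x))
          (((cap M b o c).askc τ ((cap M b o c).run z τ)).map (qans z))).1, ?_⟩
        show ((cap M b o c).nxt τ ((cap M b o c).run z τ) _).1 = _
        unfold DLM.nxt
        rw [hs]
        rfl
      have hb1 : (cap M b o c).be b o z τ = blk b o (M.addr τ x) := by
        show blk b o ((cap M b o c).addr τ ((cap M b o c).run z τ).1) = _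
        rw [hs]
        rfl
      have hb2 : (cap M b o c).be b o z (τ + 1) =
          blk b o ((cap M b o c).addr (τ + 1) (capNext M b o c τ i x x')) := by
        show blk b o ((cap M b o c).addr (τ + 1) ((cap M b o c).run z (τ + 1)).1) = _
        rw [hx']
      rw [hx', nch_succ, hnch, hb2, hb1]
      unfold capNext
      by_cases h1 : blk b o (M.addr (τ + 1) x') = blk b o (M.addr τ x)
      · rw [if_pos h1]
        refine ⟨fun j y h => ?_, fun h => absurd h (by simp)⟩
        simp only [Option.some.injEq, Prod.mk.injEq] at h
        rw [← h.1, if_neg]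
        · simp
        · rw [not_not]
          exact h1
      · rw [if_neg h1]
        by_cases h2 : (i : ℕ) + 1 < c + 1
        · rw [dif_pos h2]
          refine ⟨fun j y h => ?_, fun h => absurd h (by simp)⟩
          simp only [Option.some.injEq, Prod.mk.injEq] at h
          rw [← h.1, if_pos]
          exact h1
        · rw [dif_neg h2]
          refine ⟨fun j y h => absurd h (by simp), fun _ => ?_⟩
          have := i.2
          split_ifs <;> omega

lemma cap_nch_le (τ : ℕ) : nch ((cap M b o c).be b o z) τ ≤ c + 1 := by
  rcases hs : ((cap M b o c).run z τ).1 with _ | ⟨i, x⟩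
  · exact (cap_nch M b o c z τ).2 hs
  · rw [(cap_nch M b o c z τ).1 i x hs]
    have := i.2
    omega

/-- As long as there are few block changes the stopped machine follows the machine. -/
lemma cap_run (τ : ℕ) (h : nch (M.be b o z) τ < c + 1) :
    (cap M b o c).run z τ = (some (⟨nch (M.be b o z) τ, h⟩, (M.run z τ).1), (M.run z τ).2) := by
  induction τ with
  | zero =>
    show ((some (0, M.start) : Option (Fin (c + 1) × Q)), M.init) = _
    congr 3
  | succ τ ih =>
    have hle := nch_mono (M.be b o z) (Nat.le_succ τ)
    have ih := ih (by simp only [Nat.succ_eq_add_one] at hle; omega)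
    have hq : (cap M b o c).askc τ ((cap M b o c).run z τ) = M.askc τ (M.run z τ) := by
      rw [ih]; rfl
    show (cap M b o c).nxt τ ((cap M b o c).run z τ) (((cap M b o c).askc τ
      ((cap M b o c).run z τ)).map (qans z)) = _
    rw [hq]
    set a := (M.askc τ (M.run z τ)).map (qans z) with ha
    have e1 : (cap M b o c).nxt τ ((cap M b o c).run z τ) a =
        (capNext M b o c τ ⟨nch (M.be b o z) τ, by
          simp only [Nat.succ_eq_add_one] at hle; omega⟩ (M.run z τ).1
          (M.run z (τ + 1)).1, (M.run z (τ + 1)).2) := by
      rw [ih]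
      rfl
    rw [e1]
    refine Prod.ext ?_ rfl
    show capNext M b o c τ _ (M.run z τ).1 (M.run z (τ + 1)).1 = _
    unfold capNext
    have hs := nch_succ (M.be b o z) τ
    by_cases h1 : blk b o (M.addr (τ + 1) (M.run z (τ + 1)).1) = blk b o (M.addr τ (M.run z τ).1)
    · rw [if_pos h1]
      have h2 : ¬ (M.be b o z (τ + 1) ≠ M.be b o z τ) := not_not.2 h1
      rw [if_neg h2, add_zero] at hs
      simp only [hs]
    · rw [if_neg h1]
      have h2 : M.be b o z (τ + 1) ≠ M.be b o z τ := h1
      rw [if_pos h2] at hs
      simp only [hs]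
      rw [dif_pos (by rw [← hs]; exact h)]

/-- The stopped machine is stopped when there are too many block changes. -/
lemma cap_dead (τ : ℕ) (h : c + 1 ≤ nch (M.be b o z) τ) : ((cap M b o c).run z τ).1 = none := by
  induction τ with
  | zero => simp [nch] at h
  | succ τ ih =>
    by_cases h0 : c + 1 ≤ nch (M.be b o z) τ
    · exact cap_none M b o c z τ (ih h0)
    · push Not at h0
      have hs := nch_succ (M.be b o z) τ
      have h1 : M.be b o z (τ + 1) ≠ M.be b o z τ := by
        intro h1
        rw [if_neg (not_not.2 h1)] at hs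
        omega
      have hr := cap_run M b o c z τ h0
      have hq : (cap M b o c).askc τ ((cap M b o c).run z τ) = M.askc τ (M.run z τ) := by
        rw [hr]; rfl
      show ((cap M b o c).nxt τ ((cap M b o c).run z τ) (((cap M b o c).askc τ
        ((cap M b o c).run z τ)).map (qans z))).1 = _
      rw [hq]
      have e1 : ((cap M b o c).nxt τ ((cap M b o c).run z τ) ((M.askc τ (M.run z τ)).map
          (qans z))).1 = capNext M b o c τ ⟨nch (M.be b o z) τ, h0⟩ (M.run z τ).1
          (M.run z (τ + 1)).1 := by
        rw [hr]
        rfl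
      rw [e1]
      unfold capNext
      have h1' : ¬ blk b o (M.addr (τ + 1) (M.run z (τ + 1)).1) =
        blk b o (M.addr τ (M.run z τ).1) := h1
      rw [if_neg h1', dif_neg]
      rw [if_pos h1] at hs
      simp only
      omega

end Cap

end Pool.Agent.HR
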