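import Mathlib
import Pool.Agent.Lib_helper21.TS.Defs
import Pool.Agent.Lib_helper21.TR.Defs
import Pool.Agent.Lib_helper21.HM.Defs

/-!
# Randomised machines with random access to the input and an unbounded memory
-/

open MeasureTheory

namespace Pool.Agent.HR

open Pool.Agent.TS Pool.Agent.TR Pool.Agent.HM

/-- A randomised, nonuniform machine with random access to a graph on `Fin n`, with states in `Q`,
one register with content in `Γ` for every point of `ℤ^D`, and random seeds in `Ω`. With seed `ω`
it starts in the state `start ω` with the contents `init ω` of the registers. If at time `t` it is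
in the state `x`, it accesses the register `addr ω t x`. If `γ` is the content of this register, it
asks the question `ask ω t x γ` about the input graph, and, `a` being the answer and
`(x', γ') = next ω t x γ a`, it writes `γ'` into the register and goes to the state `x'` (arbitrary
functions). `output x = some b`: in state `x` the machine stops with the answer `b` (`true`: there
is a triangle). -/
structure RMachine (n D : ℕ) (Q Γ Ω : Type) where
  start : Ω → Q
  init : Ω → Reg D → Γ
  addr : Ω → ℕ → Q → Reg D
  ask : Ω → ℕ → Q → Γ → Query n
  next : Ω → ℕ → Q → Γ → Option (Fin n) → Q × Γ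
  output : Q → Option Bool

/-- The state and the contents of all the registers after `t` steps on the graph `G` with seed `ω`;
a machine that has answered does not change them any more. -/
noncomputable def RMachine.run {n D : ℕ} {Q Γ Ω : Type} (M : RMachine n D Q Γ Ω) (ω : Ω)
    (G : SimpleGraph (Fin n)) : ℕ → Q × (Reg D → Γ)
  | 0 => (M.start ω, M.init ω)
  | t + 1 =>
    if (M.output (M.run ω G t).1).isSome then M.run ω G t
    else
      ((M.next ω t (M.run ω G t).1 ((M.run ω G t).2 (M.addr ω t (M.run ω G t).1))
        (answer G (M.ask ω t (M.run ω G t).1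
          ((M.run ω G t).2 (M.addr ω t (M.run ω G t).1))))).1,
      Function.update (M.run ω G t).2 (M.addr ω t (M.run ω G t).1)
        (M.next ω t (M.run ω G t).1 ((M.run ω G t).2 (M.addr ω t (M.run ω G t).1))
        (answer G (M.ask ω t (M.run ω G t).1
          ((M.run ω G t).2 (M.addr ω t (M.run ω G t).1))))).2)

/-- The answer given by time `t`, if any. -/
noncomputable def RMachine.out {n D : ℕ} {Q Γ Ω : Type} (M : RMachine n D Q Γ Ω) (ω : Ω)
    (G : SimpleGraph (Fin n)) (t : ℕ) : Option Bool := M.output (M.run ω G t).1

/-- The register accessed at time `t`. -/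
noncomputable def RMachine.reg {n D : ℕ} {Q Γ Ω : Type} (M : RMachine n D Q Γ Ω) (ω : Ω)
    (G : SimpleGraph (Fin n)) (t : ℕ) : Reg D := M.addr ω t (M.run ω G t).1

/-- On every graph with degree sequence `δ` the machine answers correctly whether there is a
triangle with probability at least `2 / 3`, the seed being distributed according to `μ`. (First
two clauses: the state and the register accessed at every time are random variables.) -/
def RMachine.DetectsTriangles {n D : ℕ} {Q Γ Ω : Type} [MeasurableSpace Ω]
    (M : RMachine n D Q Γ Ω) (μ : Measure Ω) (δ : Fin n → ℕ) : Prop :=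
  ∀ G : SimpleGraph (Fin n), HasDegrees G δ →
    (∀ t x, MeasurableSet {ω | (M.run ω G t).1 = x}) ∧
    (∀ t y, MeasurableSet {ω | M.reg ω G t = y}) ∧
    2 / 3 ≤ μ.real {ω | ∃ t b, M.out ω G t = some b ∧ (b = true ↔ ¬ G.CliqueFree 3)}

open Classical in
/-- The cost of the steps made before time `m`, `far` being a relation on registers: a step costs
`1`; if the machine has not answered after it and it is not far, then it costs in addition the
distance between the registers accessed before and after it. A step is far if it goes from a
register `x` to a register `y` with `far x y`. -/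
noncomputable def RMachine.cost {n D : ℕ} {Q Γ Ω : Type} (M : RMachine n D Q Γ Ω)
    (far : Reg D → Reg D → Prop) (ω : Ω) (G : SimpleGraph (Fin n)) (m : ℕ) : ℕ :=
  ∑ t ∈ Finset.range m, ((if M.out ω G t = none then 1 else 0) +
    if M.out ω G (t + 1) = none ∧ ¬ far (M.reg ω G t) (M.reg ω G (t + 1))
      then HM.dist (M.reg ω G t) (M.reg ω G (t + 1)) else 0)

open Classical in
/-- The number of far steps made before time `m` (without the step after which the machine
answers). -/
noncomputable def RMachine.farSteps {n D : ℕ} {Q Γ Ω : Type} (M : RMachine n D Q Γ Ω)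
    (far : Reg D → Reg D → Prop) (ω : Ω) (G : SimpleGraph (Fin n)) (m : ℕ) : ℕ :=
  ∑ t ∈ Finset.range m,
    if M.out ω G (t + 1) = none ∧ far (M.reg ω G t) (M.reg ω G (t + 1)) then 1 else 0

/-- The expected cost on every graph with degree sequence `δ` is at most `T`. -/
def RMachine.ExpectedCostLE {n D : ℕ} {Q Γ Ω : Type} [MeasurableSpace Ω]
    (M : RMachine n D Q Γ Ω) (μ : Measure Ω) (δ : Fin n → ℕ) (far : Reg D → Reg D → Prop)
    (T : ℝ) : Prop :=
  ∀ G : SimpleGraph (Fin n), HasDegrees G δ → ∀ m : ℕ,
    ∫⁻ ω, (M.cost far ω G m : ENNReal) ∂μ ≤ ENNReal.ofReal T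

/-- The expected number of far steps on every graph with degree sequence `δ` is at most `F`. -/
def RMachine.ExpectedFarLE {n D : ℕ} {Q Γ Ω : Type} [MeasurableSpace Ω]
    (M : RMachine n D Q Γ Ω) (μ : Measure Ω) (δ : Fin n → ℕ) (far : Reg D → Reg D → Prop)
    (F : ℕ) : Prop :=
  ∀ G : SimpleGraph (Fin n), HasDegrees G δ → ∀ m : ℕ,
    ∫⁻ ω, (M.farSteps far ω G m : ENNReal) ∂μ ≤ F

end Pool.Agent.HR
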