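import Mathlib
import Pool.Agent.Lib_helper21.TR.Encode
import Pool.Agent.Lib_helper21.HR.Defs
import Pool.Agent.Lib_helper21.HR.Cap

/-!
# From machines on graphs to machines reading permutations
-/

set_option linter.unusedSectionVars false

namespace Pool.Agent.HR

open Finset Equiv Pool.Agent.TS Pool.Agent.TR Pool.Agent.HM

section Mach

variable {J B U : Type} {t d w pad : ℕ} (eJ : J ≃ Fin t) (eB : B ≃ Fin d) (eU : U ≃ Fin w)
  {D : ℕ} {Q Γ Ω : Type}

/-- The register accessed; a machine that has answered accesses the register `0`. -/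
noncomputable def RMachine.rg {n : ℕ} (M : RMachine n D Q Γ Ω) (ω : Ω) (G : SimpleGraph (Fin n))
    (i : ℕ) : Reg D := if (M.out ω G i).isSome then fun _ => 0 else M.reg ω G i

open Classical in
/-- The deterministic machine of a seed. -/
noncomputable def dm (E : B × U → B × U → Prop)
    (M : RMachine (t * w + (d * w + (d * w + pad))) D Q Γ Ω)
    (ω : Ω) : DLM (Bool × (J × B)) U D Q Γ where
  start := M.start ω
  init := M.init ω
  addr i x := if (M.output x).isSome then fun _ => 0 else M.addr ω i x
  ask i x γ := (tr eJ eB eU pad (M.ask ω i x γ)).map qconv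
  step i x γ a := if (M.output x).isSome then (x, γ) else
    if h : ∃ z : Bool × (J × B) → Perm U,
      ((tr eJ eB eU pad (M.ask ω i x γ)).map qconv).map (qans z) = a then
      M.next ω i x γ (answer (theGraph eJ eB eU pad E (toInp h.choose)) (M.ask ω i x γ))
    else (x, γ)

lemma dm_run (E : B × U → B × U → Prop)
    (M : RMachine (t * w + (d * w + (d * w + pad))) D Q Γ Ω)
    (ω : Ω) (z : Bool × (J × B) → Perm U) (i : ℕ) :
    (dm eJ eB eU E M ω).run z i = M.run ω (theGraph eJ eB eU pad E (toInp z)) i := by
  classical
  induction i with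
  | zero => rfl
  | succ i ih =>
    show (dm eJ eB eU E M ω).nxt i ((dm eJ eB eU E M ω).run z i) _ = _
    rw [ih]
    set p := M.run ω (theGraph eJ eB eU pad E (toInp z)) i with hp
    have hr : M.run ω (theGraph eJ eB eU pad E (toInp z)) (i + 1) =
        if (M.output p.1).isSome then p else
          ((M.next ω i p.1 (p.2 (M.addr ω i p.1))
            (answer (theGraph eJ eB eU pad E (toInp z)) (M.ask ω i p.1
              (p.2 (M.addr ω i p.1))))).1,
          Function.update p.2 (M.addr ω i p.1)
            (M.next ω i p.1 (p.2 (M.addr ω i p.1))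
              (answer (theGraph eJ eB eU pad E (toInp z)) (M.ask ω i p.1
                (p.2 (M.addr ω i p.1))))).2) := rfl
    rw [hr]
    unfold DLM.nxt
    by_cases h1 : (M.output p.1).isSome
    · have hs : ∀ γ a, (dm eJ eB eU E M ω).step i p.1 γ a = (p.1, γ) := by
        intro γ a
        simp only [dm]
        rw [if_pos h1]
      rw [hs, if_pos h1]
      simp
    · have ha : (dm eJ eB eU E M ω).addr i p.1 = M.addr ω i p.1 := by
        simp only [dm]
        rw [if_neg h1]
      have hs : (dm eJ eB eU E M ω).step i p.1 (p.2 (M.addr ω i p.1))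
          (((dm eJ eB eU E M ω).askc i p).map (qans z)) =
            M.next ω i p.1 (p.2 (M.addr ω i p.1))
              (answer (theGraph eJ eB eU pad E (toInp z)) (M.ask ω i p.1
                (p.2 (M.addr ω i p.1)))) := by
        unfold DLM.askc
        rw [ha]
        simp only [dm]
        rw [if_neg h1]
        split_ifs with h2
        · congr 1
          apply answer_eq
          exact (map_conv h2.choose _).symm.trans (h2.choose_spec.trans (map_conv z _))
        · exact absurd ⟨z, rfl⟩ h2
      rw [if_neg h1, ha, hs]

lemma dm_be (E : B × U → B × U → Prop)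
    (M : RMachine (t * w + (d * w + (d * w + pad))) D Q Γ Ω)
    (ω : Ω) (z : Bool × (J × B) → Perm U) (b o : ℕ) :
    (dm eJ eB eU E M ω).be b o z = fun i =>
      blk b o (M.rg ω (theGraph eJ eB eU pad E (toInp z)) i) := by
  funext i
  show blk b o ((dm eJ eB eU E M ω).addr i ((dm eJ eB eU E M ω).run z i).1) = _
  rw [dm_run]
  rfl

end Mach

end Pool.Agent.HR
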