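import Mathlib
import Pool.Agent.Lib_helper21.TR.Rand
import Pool.Agent.Lib_helper21.HR.Encode

/-!
# Averaging over the random seed
-/

set_option linter.unusedSectionVars false

open MeasureTheory

namespace Pool.Agent.HR

open Finset Equiv Pool.Agent.TS Pool.Agent.TR Pool.Agent.HM

section Runs

variable {n D : ℕ} {Q Γ Ω : Type} (M : RMachine n D Q Γ Ω)

lemma run_stable (ω : Ω) (G : SimpleGraph (Fin n)) (t t' : ℕ) (h : t ≤ t')
    (hs : (M.out ω G t).isSome) : M.run ω G t' = M.run ω G t := by
  induction t', h using Nat.le_induction with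
  | base => rfl
  | succ t' _ ih =>
    show (if (M.output (M.run ω G t').1).isSome then M.run ω G t' else _) = _
    have hs' : (M.output (M.run ω G t).1).isSome := hs
    rw [ih, if_pos hs']

lemma out_none (ω : Ω) (G : SimpleGraph (Fin n)) (t t' : ℕ) (h : t ≤ t')
    (hs : M.out ω G t' = none) : M.out ω G t = none := by
  by_contra hcon
  have h1 : (M.out ω G t).isSome := Option.ne_none_iff_isSome.1 hcon
  unfold RMachine.out at hs hcon
  rw [run_stable M ω G t t' h h1] at hs
  exact hcon hs

lemma out_some (ω : Ω) (G : SimpleGraph (Fin n)) (t t' : ℕ) (b b' : Bool)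
    (hs : M.out ω G t = some b) (hs' : M.out ω G t' = some b') : b = b' := by
  rcases le_total t t' with h | h
  · have := run_stable M ω G t t' h (by rw [hs]; rfl)
    unfold RMachine.out at hs hs'
    rw [this, hs] at hs'
    exact Option.some.inj hs'
  · have := run_stable M ω G t' t h (by rw [hs']; rfl)
    unfold RMachine.out at hs hs'
    rw [this, hs'] at hs
    exact (Option.some.inj hs).symm

variable [Fintype Q] [MeasurableSpace Ω] (μ : Measure Ω) [IsProbabilityMeasure μ]

lemma meas_out (G : SimpleGraph (Fin n)) (hm : ∀ t x, MeasurableSet {ω | (M.run ω G t).1 = x})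
    (t : ℕ) (o : Option Bool) : MeasurableSet {ω | M.out ω G t = o} := by
  classical
  have : {ω | M.out ω G t = o} =
      ⋃ x ∈ (Finset.univ.filter fun x : Q => M.output x = o), {ω | (M.run ω G t).1 = x} := by
    ext ω
    simp [RMachine.out]
  rw [this]
  exact Finset.measurableSet_biUnion _ fun x _ => hm t x

lemma prob_free (G : SimpleGraph (Fin n)) (hG : G.CliqueFree 3)
    (hd : 2 / 3 ≤ μ.real {ω | ∃ t b, M.out ω G t = some b ∧
      (b = true ↔ ¬ G.CliqueFree 3)}) (m : ℕ)
    (h2 : μ.real {ω | M.out ω G m = none} ≤ 1 / 20) :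
    37 / 60 ≤ μ.real {ω | M.out ω G m = some false} := by
  have h3 : μ.real {ω | ∃ t b, M.out ω G t = some b ∧ (b = true ↔ ¬ G.CliqueFree 3)} ≤
      μ.real ({ω | M.out ω G m = some false} ∪
        {ω | M.out ω G m = none}) := by
    apply measureReal_mono
    · rintro ω ⟨t, b, hb, hb'⟩
      have hbf : b = false := by
        cases b
        · rfl
        · exact absurd hG (hb'.1 rfl)
      subst hbf
      rcases ho : M.out ω G m with _ | b'
      · exact Or.inr ho
      · left
        have := out_some M ω G t m false b' hb ho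
        rw [← this] at ho
        exact ho
    · exact measure_ne_top _ _
  have h4 := measureReal_union_le (μ := μ) {ω | M.out ω G m = some false}
        {ω | M.out ω G m = none}
  linarith

lemma prob_tri (G : SimpleGraph (Fin n)) (hG : ¬ G.CliqueFree 3)
    (hm : ∀ t x, MeasurableSet {ω | (M.run ω G t).1 = x})
    (hd : 2 / 3 ≤ μ.real {ω | ∃ t b, M.out ω G t = some b ∧
      (b = true ↔ ¬ G.CliqueFree 3)}) (m : ℕ) :
    μ.real {ω | M.out ω G m = some false} ≤ 1 / 3 := by
  have h1 : μ.real {ω | ∃ t b, M.out ω G t = some b ∧ (b = true ↔ ¬ G.CliqueFree 3)} ≤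
      μ.real ({ω | M.out ω G m = some false}ᶜ) := by
    apply measureReal_mono
    · rintro ω ⟨t, b, hb, hb'⟩ hω
      have hbt : b = true := hb'.2 hG
      subst hbt
      have := out_some M ω G t m true false hb hω
      exact absurd this (by decide)
    · exact measure_ne_top _ _
  rw [measureReal_compl (meas_out M G hm m (some false)), probReal_univ] at h1
  linarith

end Runs

section Blocks

variable {n D : ℕ} {Q Γ Ω : Type} (M : RMachine n D Q Γ Ω) [Fintype Q] [MeasurableSpace Ω]
  (μ : Measure Ω) [IsProbabilityMeasure μ] (G : SimpleGraph (Fin n))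

lemma meas_rg (hm : ∀ t x, MeasurableSet {ω | (M.run ω G t).1 = x})
    (hr : ∀ t y, MeasurableSet {ω | M.reg ω G t = y}) (t : ℕ) (y : Reg D) :
    MeasurableSet {ω | M.rg ω G t = y} := by
  classical
  have h0 := meas_out M G hm t none
  have e : {ω | M.rg ω G t = y} = ({ω | M.out ω G t = none} ∩ {ω | M.reg ω G t = y}) ∪
      (({ω | M.out ω G t = none}ᶜ) ∩ {_ω | (fun _ => 0 : Reg D) = y}) := by
    ext ω
    simp only [RMachine.rg, Set.mem_ofPred_eq, Set.mem_union, Set.mem_inter_iff, Set.mem_compl_iff]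
    rcases ho : M.out ω G t with _ | b
    · simp
    · simp
  rw [e]
  exact (h0.inter (hr t y)).union (h0.compl.inter (MeasurableSet.const _))

/-- Events defined by a random variable with countably many values are measurable. -/
lemma meas_pred {α : Type} [Countable α] (x : Ω → α) (hx : ∀ v, MeasurableSet {ω | x ω = v})
    (P : α → Prop) : MeasurableSet {ω | P (x ω)} := by
  have e : {ω | P (x ω)} = ⋃ v : {v : α // P v}, {ω | x ω = v.1} := by
    ext ω
    simp only [Set.mem_ofPred_eq, Set.mem_iUnion]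
    constructor
    · intro h
      exact ⟨⟨x ω, h⟩, rfl⟩
    · rintro ⟨⟨v, hv⟩, h⟩
      simp only at h
      rw [h]
      exact hv
  rw [e]
  exact MeasurableSet.iUnion fun v => hx _

lemma meas_pair {α β : Type} (x : Ω → α) (y : Ω → β) (hx : ∀ v, MeasurableSet {ω | x ω = v})
    (hy : ∀ v, MeasurableSet {ω | y ω = v}) (v : α × β) :
    MeasurableSet {ω | (x ω, y ω) = v} := by
  have e : {ω | (x ω, y ω) = v} = {ω | x ω = v.1} ∩ {ω | y ω = v.2} := by
    ext ω
    simp only [Set.mem_ofPred_eq, Set.mem_inter_iff, Prod.ext_iff]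
  rw [e]
  exact (hx _).inter (hy _)

lemma meas_two {α : Type} [Countable α] (x y : Ω → α) (hx : ∀ v, MeasurableSet {ω | x ω = v})
    (hy : ∀ v, MeasurableSet {ω | y ω = v}) (P : α → α → Prop) :
    MeasurableSet {ω | P (x ω) (y ω)} :=
  meas_pred (fun ω => (x ω, y ω)) (meas_pair x y hx hy) (fun p => P p.1 p.2)

/-- The block changes. -/
def chg (b o t : ℕ) : Set Ω := {ω | blk b o (M.rg ω G (t + 1)) ≠ blk b o (M.rg ω G t)}

lemma meas_chg (hm : ∀ t x, MeasurableSet {ω | (M.run ω G t).1 = x})
    (hr : ∀ t y, MeasurableSet {ω | M.reg ω G t = y}) (b o t : ℕ) :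
    MeasurableSet (chg M G b o t) :=
  meas_two (fun ω => M.rg ω G (t + 1)) (fun ω => M.rg ω G t) (meas_rg M G hm hr (t + 1))
    (meas_rg M G hm hr t) (fun x y => blk b o x ≠ blk b o y)

/-- The number of block changes. -/
noncomputable def nb (ω : Ω) (b o N : ℕ) : ℕ := nch (fun i => blk b o (M.rg ω G i)) N

open Classical in
lemma nb_succ (ω : Ω) (b o N : ℕ) : nb M G ω b o (N + 1) = nb M G ω b o N +
    if ω ∈ chg M G b o N then 1 else 0 := by
  unfold nb
  rw [nch_succ]
  congr 1
  by_cases h : blk b o (M.rg ω G (N + 1)) ≠ blk b o (M.rg ω G N)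
  · rw [if_pos h, if_pos (show ω ∈ chg M G b o N from h)]
  · rw [if_neg h, if_neg (show ¬ ω ∈ chg M G b o N from h)]

lemma meas_nb (hm : ∀ t x, MeasurableSet {ω | (M.run ω G t).1 = x})
    (hr : ∀ t y, MeasurableSet {ω | M.reg ω G t = y}) (b o N j : ℕ) :
    MeasurableSet {ω | nb M G ω b o N = j} := by
  induction N generalizing j with
  | zero =>
    have : {ω : Ω | nb M G ω b o 0 = j} = {_ω | 0 = j} := by
      ext ω
      simp [nb, nch]
    rw [this]
    exact MeasurableSet.const _
  | succ N ih =>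
    have hc := meas_chg M G hm hr b o N
    rcases j with _ | j
    · have : {ω | nb M G ω b o (N + 1) = 0} = {ω | nb M G ω b o N = 0} ∩ (chg M G b o N)ᶜ := by
        ext ω
        simp only [Set.mem_ofPred_eq, Set.mem_inter_iff, Set.mem_compl_iff, nb_succ]
        split_ifs with h <;> simp [h]
      rw [this]
      exact (ih 0).inter hc.compl
    · have : {ω | nb M G ω b o (N + 1) = j + 1} =
          ({ω | nb M G ω b o N = j} ∩ chg M G b o N) ∪
          ({ω | nb M G ω b o N = j + 1} ∩ (chg M G b o N)ᶜ) := by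
        ext ω
        simp only [Set.mem_ofPred_eq, Set.mem_inter_iff, Set.mem_compl_iff, Set.mem_union, nb_succ]
        split_ifs with h <;> simp [h]
      rw [this]
      exact ((ih j).inter hc).union ((ih (j + 1)).inter hc.compl)

lemma meas_nb_le (hm : ∀ t x, MeasurableSet {ω | (M.run ω G t).1 = x})
    (hr : ∀ t y, MeasurableSet {ω | M.reg ω G t = y}) (b o N c : ℕ) :
    MeasurableSet {ω | nb M G ω b o N ≤ c} := by
  have : {ω | nb M G ω b o N ≤ c} = ⋃ j ∈ range (c + 1), {ω | nb M G ω b o N = j} := by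
    ext ω
    simp only [Set.mem_ofPred_eq, Set.mem_iUnion, Finset.mem_range, exists_prop,
      exists_eq_right', Nat.lt_succ_iff]
  rw [this]
  exact Finset.measurableSet_biUnion _ fun j _ => meas_nb M G hm hr b o N j

/-- The outputs and registers at a time and at the next time. -/
noncomputable def four (ω : Ω) (t : ℕ) : (Option Bool × Option Bool) × (Reg D × Reg D) :=
  ((M.out ω G t, M.out ω G (t + 1)), (M.reg ω G t, M.reg ω G (t + 1)))

lemma meas_four (hm : ∀ t x, MeasurableSet {ω | (M.run ω G t).1 = x})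
    (hr : ∀ t y, MeasurableSet {ω | M.reg ω G t = y}) (t : ℕ) (h :
      (Option Bool × Option Bool) × (Reg D × Reg D) → ℕ) :
    Measurable fun ω => (h (four M G ω t) : ENNReal) := by
  have h1 : Measurable fun ω => h (four M G ω t) := by
    refine measurable_to_countable' fun v => ?_
    exact meas_pred (four M G · t) (meas_pair _ _ (meas_pair _ _ (meas_out M G hm t)
      (meas_out M G hm (t + 1))) (meas_pair _ _ (hr t) (hr (t + 1)))) (fun w => h w = v)
  exact (measurable_from_nat (f := fun i : ℕ => (i : ENNReal))).comp h1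

lemma meas_cost (hm : ∀ t x, MeasurableSet {ω | (M.run ω G t).1 = x})
    (hr : ∀ t y, MeasurableSet {ω | M.reg ω G t = y}) (far : Reg D → Reg D → Prop) (m : ℕ) :
    Measurable fun ω => (M.cost far ω G m : ENNReal) := by
  classical
  unfold RMachine.cost
  simp only [Nat.cast_sum]
  refine Finset.measurable_fun_sum _ fun t _ => ?_
  exact meas_four M G hm hr t (fun w => (if w.1.1 = none then 1 else 0) +
    if w.1.2 = none ∧ ¬ far w.2.1 w.2.2 then HM.dist w.2.1 w.2.2 else 0)

lemma meas_farSteps (hm : ∀ t x, MeasurableSet {ω | (M.run ω G t).1 = x})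
    (hr : ∀ t y, MeasurableSet {ω | M.reg ω G t = y}) (far : Reg D → Reg D → Prop) (m : ℕ) :
    Measurable fun ω => (M.farSteps far ω G m : ENNReal) := by
  classical
  unfold RMachine.farSteps
  simp only [Nat.cast_sum]
  refine Finset.measurable_fun_sum _ fun t _ => ?_
  exact meas_four M G hm hr t (fun w => if w.1.2 = none ∧ far w.2.1 w.2.2 then 1 else 0)

lemma meas_nbf (hm : ∀ t x, MeasurableSet {ω | (M.run ω G t).1 = x})
    (hr : ∀ t y, MeasurableSet {ω | M.reg ω G t = y}) (b o N : ℕ) :
    Measurable fun ω => (nb M G ω b o N : ENNReal) := by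
  have h1 : Measurable fun ω => nb M G ω b o N :=
    measurable_to_countable' fun v => meas_nb M G hm hr b o N v
  exact (measurable_from_nat (f := fun i : ℕ => (i : ENNReal))).comp h1

open Classical in
/-- The block changes for all offsets at a time. -/
lemma step_bound (far : Reg D → Reg D → Prop) (b : ℕ) (hb : 0 < b) (ω : Ω) (t : ℕ) :
    ((range b).filter fun o => blk b o (M.rg ω G (t + 1)) ≠ blk b o (M.rg ω G t)).card ≤
      ((if M.out ω G t = none then 1 else 0) +
    if M.out ω G (t + 1) = none ∧ ¬ far (M.reg ω G t) (M.reg ω G (t + 1))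
      then HM.dist (M.reg ω G t) (M.reg ω G (t + 1)) else 0) +
      b * (if M.out ω G (t + 1) = none ∧ far (M.reg ω G t) (M.reg ω G (t + 1)) then 1 else 0) +
      b * (if M.out ω G t = none ∧ M.out ω G (t + 1) ≠ none then 1 else 0) := by
  have hcb : ((range b).filter fun o => blk b o (M.rg ω G (t + 1)) ≠
      blk b o (M.rg ω G t)).card ≤ b :=
    (Finset.card_filter_le _ _).trans (by simp)
  by_cases h0 : M.out ω G t = none
  · by_cases h1 : M.out ω G (t + 1) = none
    · have e1 : M.rg ω G t = M.reg ω G t := by unfold RMachine.rg; rw [h0]; rfl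
      have e2 : M.rg ω G (t + 1) = M.reg ω G (t + 1) := by
        unfold RMachine.rg; rw [h1]; rfl
      by_cases h2 : far (M.reg ω G t) (M.reg ω G (t + 1))
      · rw [if_pos (⟨h1, h2⟩ : M.out ω G (t + 1) = none ∧
          far (M.reg ω G t) (M.reg ω G (t + 1)))]
        omega
      · have h3 := cross_card b hb (M.rg ω G t) (M.rg ω G (t + 1))
        have h4 : ((range b).filter fun o => blk b o (M.rg ω G (t + 1)) ≠
            blk b o (M.rg ω G t)).card ≤ HM.dist (M.reg ω G t) (M.reg ω G (t + 1)) := by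
          rw [← e1, ← e2]
          refine le_trans (le_of_eq ?_) h3
          congr 1
          exact Finset.filter_congr fun o _ => ne_comm
        rw [if_pos (⟨h1, h2⟩ : M.out ω G (t + 1) = none ∧
          ¬ far (M.reg ω G t) (M.reg ω G (t + 1)))]
        omega
    · rw [if_pos (⟨h0, h1⟩ : M.out ω G t = none ∧ M.out ω G (t + 1) ≠ none)]
      omega
  · have h1 : M.out ω G (t + 1) ≠ none := fun h => h0 (out_none M ω G t (t + 1) (by omega) h)
    have e1 : M.rg ω G t = fun _ => 0 := by
      unfold RMachine.rg; rw [if_pos (Option.ne_none_iff_isSome.1 h0)]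
    have e2 : M.rg ω G (t + 1) = fun _ => 0 := by
      unfold RMachine.rg; rw [if_pos (Option.ne_none_iff_isSome.1 h1)]
    rw [e1, e2]
    simp

open Classical in
lemma answer_once (ω : Ω) (N : ℕ) :
    ∑ t ∈ range N, (if M.out ω G t = none ∧ M.out ω G (t + 1) ≠ none then 1 else 0) ≤
      if M.out ω G N = none then 0 else 1 := by
  induction N with
  | zero => simp
  | succ N ih =>
    rw [Finset.sum_range_succ]
    by_cases h1 : M.out ω G (N + 1) = none
    · have h0 := out_none M ω G N (N + 1) (by omega) h1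
      rw [if_pos h0] at ih
      rw [if_pos h1, if_neg (by simp [h1])]
      omega
    · rw [if_neg h1]
      by_cases h0 : M.out ω G N = none
      · rw [if_pos h0] at ih
        split_ifs <;> omega
      · rw [if_neg h0] at ih
        rw [if_neg (by simp [h0])]
        omega

/-- The block changes for all offsets. -/
lemma total_bound (far : Reg D → Reg D → Prop) (b : ℕ) (hb : 0 < b) (ω : Ω) (N : ℕ) :
    ∑ o ∈ range b, nb M G ω b o N ≤ M.cost far ω G N + b * M.farSteps far ω G N + b := by
  classical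
  have h1 : ∑ o ∈ range b, nb M G ω b o N = ∑ t ∈ range N,
      ((range b).filter fun o => blk b o (M.rg ω G (t + 1)) ≠ blk b o (M.rg ω G t)).card := by
    unfold nb nch
    simp_rw [Finset.card_filter]
    rw [Finset.sum_comm]
  rw [h1]
  have h2 := answer_once M G ω N
  have h3 : ∑ t ∈ range N, (if M.out ω G t = none ∧ M.out ω G (t + 1) ≠ none then 1 else 0) ≤
      1 := by
    refine h2.trans ?_
    split_ifs <;> omega
  calc _ ≤ ∑ t ∈ range N, (((if M.out ω G t = none then 1 else 0) +
        if M.out ω G (t + 1) = none ∧ ¬ far (M.reg ω G t) (M.reg ω G (t + 1))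
          then HM.dist (M.reg ω G t) (M.reg ω G (t + 1)) else 0) +
      b * (if M.out ω G (t + 1) = none ∧ far (M.reg ω G t) (M.reg ω G (t + 1)) then 1 else 0) +
      b * (if M.out ω G t = none ∧ M.out ω G (t + 1) ≠ none then 1 else 0)) :=
        Finset.sum_le_sum fun t _ => step_bound M G far b hb ω t
    _ = M.cost far ω G N + b * M.farSteps far ω G N + b * ∑ t ∈ range N,
        (if M.out ω G t = none ∧ M.out ω G (t + 1) ≠ none then 1 else 0) := by
        rw [Finset.sum_add_distrib, Finset.sum_add_distrib, ← Finset.mul_sum, ← Finset.mul_sum]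
        rfl
    _ ≤ _ := by
        have := Nat.mul_le_mul_left b h3
        omega

/-- Few block changes for most offsets. -/
lemma sum_bound (hm : ∀ t x, MeasurableSet {ω | (M.run ω G t).1 = x})
    (hr : ∀ t y, MeasurableSet {ω | M.reg ω G t = y}) (far : Reg D → Reg D → Prop)
    (b : ℕ) (hb : 0 < b) (T : ℝ) (hT0 : 0 ≤ T) (F : ℕ)
    (hT : ∀ m : ℕ, ∫⁻ ω, (M.cost far ω G m : ENNReal) ∂μ ≤ ENNReal.ofReal T)
    (hF : ∀ m : ℕ, ∫⁻ ω, (M.farSteps far ω G m : ENNReal) ∂μ ≤ F) (N c : ℕ) :
    ∑ o ∈ range b, (c + 1 : ℝ) * μ.real ({ω | nb M G ω b o N ≤ c}ᶜ) ≤ T + b * F + b := by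
  have h1 : ∀ o, ((c + 1 : ℕ) : ENNReal) * μ ({ω | nb M G ω b o N ≤ c}ᶜ) ≤
      ∫⁻ ω, (nb M G ω b o N : ENNReal) ∂μ := by
    intro o
    have h := mul_meas_ge_le_lintegral (μ := μ) (meas_nbf M G hm hr b o N) ((c + 1 : ℕ) : ENNReal)
    have e : {ω | nb M G ω b o N ≤ c}ᶜ =
        {ω | ((c + 1 : ℕ) : ENNReal) ≤ (nb M G ω b o N : ENNReal)} := by
      ext ω
      simp only [Set.mem_compl_iff, Set.mem_ofPred_eq, not_le, Nat.cast_le]
      exact Nat.lt_iff_add_one_le
    rw [e]
    exact h
  have h2 : ∑ o ∈ range b, ((c + 1 : ℕ) : ENNReal) * μ ({ω | nb M G ω b o N ≤ c}ᶜ) ≤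
      ENNReal.ofReal T + b * F + b := by
    calc _ ≤ ∑ o ∈ range b, ∫⁻ ω, (nb M G ω b o N : ENNReal) ∂μ :=
          Finset.sum_le_sum fun o _ => h1 o
      _ = ∫⁻ ω, ∑ o ∈ range b, (nb M G ω b o N : ENNReal) ∂μ :=
          (lintegral_finsetSum _ fun o _ => meas_nbf M G hm hr b o N).symm
      _ ≤ ∫⁻ ω, ((M.cost far ω G N : ENNReal) + b * (M.farSteps far ω G N : ENNReal) + b) ∂μ := by
          apply lintegral_mono
          intro ω
          have h := total_bound M G far b hb ω N
          have h' : ((∑ o ∈ range b, nb M G ω b o N : ℕ) : ENNReal) ≤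
              ((M.cost far ω G N + b * M.farSteps far ω G N + b : ℕ) : ENNReal) := by
            exact_mod_cast h
          push_cast at h'
          exact h'
      _ = ∫⁻ ω, (M.cost far ω G N : ENNReal) ∂μ +
          b * ∫⁻ ω, (M.farSteps far ω G N : ENNReal) ∂μ + b := by
          rw [lintegral_add_right _ measurable_const, lintegral_add_left
            (meas_cost M G hm hr far N), lintegral_const_mul _ (meas_farSteps M G hm hr far N),
            lintegral_const, measure_univ, mul_one]
      _ ≤ _ := by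
          gcongr
          · exact hT N
          · exact hF N
  have h3 : ∑ o ∈ range b, (c + 1 : ℝ) * μ.real ({ω | nb M G ω b o N ≤ c}ᶜ) =
      (∑ o ∈ range b, ((c + 1 : ℕ) : ENNReal) * μ ({ω | nb M G ω b o N ≤ c}ᶜ)).toReal := by
    rw [ENNReal.toReal_sum]
    · refine Finset.sum_congr rfl fun o _ => ?_
      rw [ENNReal.toReal_mul, ENNReal.toReal_natCast]
      push_cast
      rfl
    · intro o _
      exact ENNReal.mul_ne_top (ENNReal.natCast_ne_top _) (measure_ne_top _ _)
  have h4 : (ENNReal.ofReal T + b * F + b : ENNReal) ≠ ⊤ := by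
    refine ENNReal.add_ne_top.2 ⟨ENNReal.add_ne_top.2 ⟨ENNReal.ofReal_ne_top,
      ENNReal.mul_ne_top (ENNReal.natCast_ne_top _) (ENNReal.natCast_ne_top _)⟩,
      ENNReal.natCast_ne_top _⟩
  rw [h3]
  refine (ENNReal.toReal_mono h4 h2).trans (le_of_eq ?_)
  rw [ENNReal.toReal_add (ENNReal.add_ne_top.2 ⟨ENNReal.ofReal_ne_top,
      ENNReal.mul_ne_top (ENNReal.natCast_ne_top _) (ENNReal.natCast_ne_top _)⟩)
      (ENNReal.natCast_ne_top _), ENNReal.toReal_add ENNReal.ofReal_ne_top
      (ENNReal.mul_ne_top (ENNReal.natCast_ne_top _) (ENNReal.natCast_ne_top _)),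
      ENNReal.toReal_mul, ENNReal.toReal_ofReal hT0, ENNReal.toReal_natCast,
      ENNReal.toReal_natCast]

lemma prob_none (hm : ∀ t x, MeasurableSet {ω | (M.run ω G t).1 = x})
    (far : Reg D → Reg D → Prop) (T : ℝ) (hT0 : 0 ≤ T)
    (hT : ∀ m : ℕ, ∫⁻ ω, (M.cost far ω G m : ENNReal) ∂μ ≤ ENNReal.ofReal T)
    (m : ℕ) : m * μ.real {ω | M.out ω G m = none} ≤ T := by
  classical
  have h1 : (m : ENNReal) * μ {ω | M.out ω G m = none} ≤ ENNReal.ofReal T := by
    refine le_trans ?_ (hT m)
    calc (m : ENNReal) * μ {ω | M.out ω G m = none} =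
        ∫⁻ ω, {ω | M.out ω G m = none}.indicator (fun _ => (m : ENNReal)) ω ∂μ :=
          (lintegral_indicator_const (meas_out M G hm m none) _).symm
      _ ≤ _ := by
          apply lintegral_mono
          intro ω
          by_cases h : M.out ω G m = none
          · have e : {ω | M.out ω G m = none}.indicator (fun _ => (m : ENNReal)) ω = m :=
              Set.indicator_of_mem (show ω ∈ {ω | M.out ω G m = none} from h) _
            simp only
            rw [e]
            have h2 : m ≤ M.cost far ω G m := by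
              unfold RMachine.cost
              calc m = ∑ _t ∈ Finset.range m, 1 := by simp
                _ ≤ _ := by
                  refine Finset.sum_le_sum fun t ht => ?_
                  rw [if_pos (out_none M ω G t m (Finset.mem_range.1 ht).le h)]
                  omega
            exact_mod_cast h2
          · have e : {ω | M.out ω G m = none}.indicator (fun _ => (m : ENNReal)) ω = 0 :=
              Set.indicator_of_notMem (show ω ∉ {ω | M.out ω G m = none} from h) _
            simp only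
            rw [e]
            exact zero_le
  have h2 := ENNReal.toReal_mono ENNReal.ofReal_ne_top h1
  rw [ENNReal.toReal_mul, ENNReal.toReal_ofReal hT0, ENNReal.toReal_natCast] at h2
  exact h2

/-- The event of few block changes and a negative answer. -/
def AA (b o N c : ℕ) : Set Ω := {ω | nb M G ω b o N ≤ c} ∩ {ω | M.out ω G N = some false}

lemma meas_AA (hm : ∀ t x, MeasurableSet {ω | (M.run ω G t).1 = x})
    (hr : ∀ t y, MeasurableSet {ω | M.reg ω G t = y}) (b o N c : ℕ) :
    MeasurableSet (AA M G b o N c) :=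
  (meas_nb_le M G hm hr b o N c).inter (meas_out M G hm N (some false))

/-- Triangle-free graphs: on average over the offset the event has probability at least `1/2`. -/
lemma sum_AA (hm : ∀ t x, MeasurableSet {ω | (M.run ω G t).1 = x})
    (hr : ∀ t y, MeasurableSet {ω | M.reg ω G t = y}) (far : Reg D → Reg D → Prop)
    (b : ℕ) (hb : 0 < b) (F : ℕ) (N c : ℕ)
    (hT : ∀ m : ℕ, ∫⁻ ω, (M.cost far ω G m : ENNReal) ∂μ ≤ ENNReal.ofReal (N / 20))
    (hF : ∀ m : ℕ, ∫⁻ ω, (M.farSteps far ω G m : ENNReal) ∂μ ≤ F)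
    (hG : G.CliqueFree 3)
    (hd : 2 / 3 ≤ μ.real {ω | ∃ t b, M.out ω G t = some b ∧
      (b = true ↔ ¬ G.CliqueFree 3)}) (hN0 : 0 < N)
    (hc : 10 * ((N / 20 : ℝ) + b * F + b) ≤ b * (c + 1)) :
    (b : ℝ) / 2 ≤ ∑ o ∈ range b, μ.real (AA M G b o N c) := by
  have hN0' : (0 : ℝ) < N := by exact_mod_cast hN0
  have hT0 : (0 : ℝ) ≤ N / 20 := by positivity
  have h0 := prob_none M μ G hm far (N / 20) hT0 hT N
  have h0' : μ.real {ω | M.out ω G N = none} ≤ 1 / 20 := by
    by_contra hcon
    push Not at hcon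
    have := mul_lt_mul_of_pos_left hcon hN0'
    linarith
  have h1 := prob_free M μ G hG hd N h0'
  have h2 := sum_bound M μ G hm hr far b hb (N / 20) hT0 F hT hF N c
  rw [← Finset.mul_sum] at h2
  have hc0 : (0 : ℝ) < c + 1 := by positivity
  have h3 : ∑ o ∈ range b, μ.real ({ω | nb M G ω b o N ≤ c}ᶜ) ≤ b / 10 := by
    have h4 : (c + 1 : ℝ) * ∑ o ∈ range b, μ.real ({ω | nb M G ω b o N ≤ c}ᶜ) ≤
        (c + 1) * (b / 10) := by linarith
    exact le_of_mul_le_mul_left h4 hc0
  have h4 : ∀ o, μ.real {ω | M.out ω G N = some false} -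
      μ.real ({ω | nb M G ω b o N ≤ c}ᶜ) ≤ μ.real (AA M G b o N c) := by
    intro o
    have h5 : μ.real {ω | M.out ω G N = some false} ≤
        μ.real (AA M G b o N c ∪ {ω | nb M G ω b o N ≤ c}ᶜ) := by
      apply measureReal_mono
      · intro ω hω
        by_cases h : nb M G ω b o N ≤ c
        · exact Or.inl ⟨h, hω⟩
        · exact Or.inr h
      · exact measure_ne_top _ _
    have h6 := measureReal_union_le (μ := μ) (AA M G b o N c) ({ω | nb M G ω b o N ≤ c}ᶜ)
    linarith
  have h5 : ∑ o ∈ range b, (μ.real {ω | M.out ω G N = some false} -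
      μ.real ({ω | nb M G ω b o N ≤ c}ᶜ)) ≤ ∑ o ∈ range b, μ.real (AA M G b o N c) :=
    Finset.sum_le_sum fun o _ => h4 o
  rw [Finset.sum_sub_distrib, Finset.sum_const, Finset.card_range, nsmul_eq_mul] at h5
  have hbR : (0 : ℝ) < b := by exact_mod_cast hb
  have h6 := mul_le_mul_of_nonneg_left h1 hbR.le
  linarith

end Blocks

end Pool.Agent.HR
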