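import Mathlib
import Pool.Agent.Lib_helper21.TR.Combine
import Pool.Agent.Lib_helper21.HR.Good
import Pool.Agent.Lib_helper21.HR.Rand

/-!
# No fast randomised machine with little memory, under numerical conditions
-/

set_option linter.unusedSectionVars false

open MeasureTheory

namespace Pool.Agent.HR

open Finset Equiv Pool.Agent.TS Pool.Agent.TR Pool.Agent.HM

section Acc

variable {K U Q Γ : Type} {D : ℕ} (M : DLM K U D Q Γ) (b o c : ℕ) (z : K → Perm U)

lemma acc_iff (N : ℕ) (P : Q → Prop) :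
    (∃ i y, ((cap M b o c).run z N).1 = some (i, y) ∧ P y) ↔
      nch (M.be b o z) N ≤ c ∧ P (M.run z N).1 := by
  by_cases h : nch (M.be b o z) N < c + 1
  · rw [cap_run M b o c z N h]
    constructor
    · rintro ⟨i, y, h1, h2⟩
      simp only [Option.some.injEq, Prod.mk.injEq] at h1
      rw [h1.2]
      exact ⟨by omega, h2⟩
    · rintro ⟨_, h2⟩
      exact ⟨_, _, rfl, h2⟩
  · rw [cap_dead M b o c z N (by omega)]
    constructor
    · rintro ⟨i, y, h1, _⟩
      exact absurd h1 (by simp)
    · rintro ⟨h1, _⟩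
      omega

end Acc

variable {J B U C CU Q Γ Ω : Type} {D : ℕ} [Fintype J] [AddCommGroup B] [Fintype B]
  [AddCommGroup U] [Fintype U] [Fintype C] [Fintype CU]
  [DecidableEq J] [DecidableEq B] [DecidableEq U] [DecidableEq C] [Fintype Q] [Fintype Γ]
  [MeasurableSpace Ω] (μ : Measure Ω) [IsProbabilityMeasure μ]
  (γ : C → B) (hγ : Function.Injective γ) (γU : CU → U) (hγU : Function.Injective γU)
  {t d w pad : ℕ} (eJ : J ≃ Fin t) (eB : B ≃ Fin d) (eU : U ≃ Fin w)

/-- The bound for the number of transcripts. -/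
def cXb (D : ℕ) (q γ b c L N : ℕ) : ℕ :=
  ((N + 1) * (((c + 1) * q + 1) * 2) + 1) ^ (c + 1 + N / L + 1) *
      ((N * γ ^ b ^ D + 1) ^ (N / L) * ((c + 1) * q + 1))

include hγ hγU in
open Classical in
/-- The combined statement. -/
theorem no_hr (M : RMachine (t * w + (d * w + (d * w + pad))) D Q Γ Ω)
    (dg' : Fin (t * w + (d * w + (d * w + pad))) → ℕ) (far : Reg D → Reg D → Prop) (T : ℝ) (F : ℕ)
    (hdet : M.DetectsTriangles μ dg') (hexp : M.ExpectedCostLE μ dg' far T)
    (hfar : M.ExpectedFarLE μ dg' far F)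
    (hdeg : ∀ z : Inp J B U, HasDegrees (theGraph eJ eB eU pad (EE γ (adjU γU)) z) dg')
    (lam lamU : ℝ) (hlam : 0 ≤ lam) (hlamU : 0 ≤ lamU)
    (hψ : ∀ ψ : AddChar B ℂ, ψ ≠ 0 → ‖∑ k, ψ (γ k)‖ ≤ lam)
    (hψU : ∀ ψ : AddChar U ℂ, ψ ≠ 0 → ‖∑ k, ψ (γU k)‖ ≤ lamU)
    (L N b c k g V f h0 : ℕ) (hL : 0 < L) (hN : 0 < N) (hb : 0 < b) (hk : 0 < k) (hg : 2 ≤ g)
    (hkg : k ≤ g + 2)
    (hV : (g + 2) ^ k ≤ V) (hf : 0 < f) (Λ τ1 : ℝ) (hΛ : 0 < Λ) (hτ : 0 < τ1)
    (hc : 10 * ((N / 20 : ℝ) + b * F + b) ≤ b * (c + 1))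
    (hU : 0 < Fintype.card U) (hJ : 0 < Fintype.card J) (hC : 0 < Fintype.card C)
    (hCU : 0 < Fintype.card CU)
    (hκ : 120 * (Fintype.card CU : ℝ) ≤ Fintype.card U)
    (hlΛ : 60 * (lamU * Λ) ≤ Fintype.card CU)
    (hY : 2 * (Fintype.card C : ℝ) * L ≤ τ1 * Fintype.card B)
    (hbad : 2 * (Fintype.card C * N / k) +
      ((Fintype.card C : ℝ) / (Fintype.card B) * L + lam) * N +
      2 * (4 * lam ^ 2 / τ1 * N) ≤
        1 / 40 * (Fintype.card J * Fintype.card B * Fintype.card C * Fintype.card U))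
    (hw : (2 * Fintype.card C + 2 * k * τ1 * ((g : ℝ) + 2) ^ k) / V +
      (2 + 8 * (2 * (Fintype.card J * Fintype.card B) * Fintype.card U) / V + 2 * k * L) / f ≤
        1 / 40)
    (h2D : 40 * ((Fintype.card C : ℝ) * Fintype.card CU) ≤ Fintype.card U)
    (hmain : 480 * (V : ℝ) ^ 2 * ((h0 + 2 * (Fintype.card J * Fintype.card B) * Fintype.card U /
        Real.sqrt Λ) + nDesc f V (cXb D (Fintype.card Q) (Fintype.card Γ) b c L N)
          (2 * (Fintype.card J * Fintype.card B) * Fintype.card U) *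
        (f * (2 ^ f * ((Real.exp 1 / Real.sqrt Λ) ^ h0 *
          (Fintype.card U : ℝ) ^ (2 * (Fintype.card C * Fintype.card CU) *
            (Fintype.card J * Fintype.card B)))))) ≤
      1 / 20 * (Fintype.card J * Fintype.card B * Fintype.card C * Fintype.card U)) :
    (N : ℝ) < 20 * T := by
  by_contra hT
  push Not at hT
  set H := HH γ J hγ with hH
  set adj := adjU γU with hadj
  set Gr := fun z : Bool × (J × B) → Perm U =>
    theGraph eJ eB eU pad (EE γ adj) (toInp z) with hGr
  have hcU : (0 : ℝ) < Fintype.card U := by exact_mod_cast hU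
  have hcJ : (0 : ℝ) < Fintype.card J := by exact_mod_cast hJ
  have hcC : (0 : ℝ) < Fintype.card C := by exact_mod_cast hC
  have hcCU : (0 : ℝ) < Fintype.card CU := by exact_mod_cast hCU
  have hcB : (0 : ℝ) < Fintype.card B := by exact_mod_cast Fintype.card_pos
  have hbR : (0 : ℝ) < b := by exact_mod_cast hb
  set κ₀ : ℝ := (Fintype.card CU : ℝ) / Fintype.card U with hκ₀
  have hκ₀0 : 0 < κ₀ := by positivity
  have cloc : (Fintype.card (((J × B) × C) × U) : ℝ) =
      Fintype.card J * Fintype.card B * Fintype.card C * Fintype.card U := by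
    rw [Fintype.card_prod, Fintype.card_prod, Fintype.card_prod]; push_cast; ring
  have cKU : Fintype.card ((Bool × (J × B)) × U) =
      2 * (Fintype.card J * Fintype.card B) * Fintype.card U := by
    rw [Fintype.card_prod, Fintype.card_prod, Fintype.card_prod, Fintype.card_bool]
  -- the sets
  set TF := (Finset.univ.filter fun z : Bool × (J × B) → Perm U =>
    ∀ ℓ : ((J × B) × C) × U, ¬ tri H adj z ℓ) with hTF
  set OT := (Finset.univ.filter fun z : Bool × (J × B) → Perm U =>
    ∃ ℓ : ((J × B) × C) × U, only H adj z ℓ) with hOT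
  -- counting of triangle-free inputs
  have htf := tf_count' (J := J) γ hγ adj (Fintype.card CU) (adjU_col γU) (adjU_row γU) (by
    have : (2 * (Fintype.card C * Fintype.card CU) : ℝ) ≤ Fintype.card U := by
      have : (0 : ℝ) ≤ Fintype.card C * Fintype.card CU := by positivity
      linarith
    exact_mod_cast this)
  rw [← hH, ← hTF, Fintype.card_prod J B] at htf
  have hTF0 : (0 : ℝ) < TF.card := by
    have h1 : 0 < Fintype.card (Bool × (J × B) → Perm U) := Fintype.card_pos
    have h2 := h1.trans_le htf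
    exact_mod_cast Nat.pos_of_mul_pos_left h2
  have htfR : (Fintype.card (Bool × (J × B) → Perm U) : ℝ) ≤
      (Fintype.card U : ℝ) ^ (2 * (Fintype.card C * Fintype.card CU) *
        (Fintype.card J * Fintype.card B)) * TF.card := by exact_mod_cast htf
  -- the choice of the offset
  have hms : ∀ z, ∀ t x, MeasurableSet {ω | (M.run ω (Gr z) t).1 = x} :=
    fun z => (hdet (Gr z) (hdeg (toInp z))).1
  have hmr : ∀ z, ∀ t y, MeasurableSet {ω | M.reg ω (Gr z) t = y} :=
    fun z => (hdet (Gr z) (hdeg (toInp z))).2.1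
  obtain ⟨o, _, ho⟩ : ∃ o ∈ range b, (1 / 2 : ℝ) * TF.card ≤
      ∑ z ∈ TF, μ.real (AA M (Gr z) b o N c) := by
    refine Finset.exists_le_of_sum_le (by simpa using hb.ne') ?_
    rw [Finset.sum_const, Finset.card_range, nsmul_eq_mul, Finset.sum_comm]
    calc (b : ℝ) * (1 / 2 * TF.card) = ∑ _z ∈ TF, (b : ℝ) / 2 := by
          rw [Finset.sum_const, nsmul_eq_mul]; ring
      _ ≤ _ := by
          refine Finset.sum_le_sum fun z hz => ?_
          have hfree : (Gr z).CliqueFree 3 := by
            rw [hGr]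
            exact (cliqueFree_iff eJ eB eU (EE γ adj) (toInp z)).2
              ((tfree_iff_tri γ hγ adj z).2 (Finset.mem_filter.1 hz).2)
          exact sum_AA M μ (Gr z) (hms z) (hmr z) far b hb F N c
            (fun m => (hexp (Gr z) (hdeg (toInp z)) m).trans (ENNReal.ofReal_le_ofReal
              (by linarith))) (hfar (Gr z) (hdeg (toInp z))) hfree
            (hdet (Gr z) (hdeg (toInp z))).2.2 hN hc
  set A : (Bool × (J × B) → Perm U) → Set Ω := fun z => AA M (Gr z) b o N c with hA
  set c1 : ℝ := κ₀ * ((1 - 3 * (1 / 60)) * ((1 - (1 / 40 + 1 / 40)) *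
    Fintype.card (((J × B) × C) × U))) with hc1
  set cX := cXb D (Fintype.card Q) (Fintype.card Γ) b c L N with hcX
  set c2 : ℝ := κ₀ * (8 / (1 / 60) * (V : ℝ) ^ 2 * ((TF.card : ℝ) * (h0 +
        Fintype.card ((Bool × (J × B)) × U) / Real.sqrt Λ) +
        nDesc f V cX (Fintype.card ((Bool × (J × B)) × U)) *
        (f * (2 ^ f * ((Real.exp 1 / Real.sqrt Λ) ^ h0 *
          Fintype.card (Bool × (J × B) → Perm U)))))) with hc2
  have hNm : N / L * L ≤ N := Nat.div_mul_le_self _ _
  -- the deterministic inequality for every seed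
  have hdetω : ∀ ω : Ω, c1 * (∑ z ∈ TF, (A z).indicator (fun _ => (1 : ℝ)) ω) - c2 ≤
      ∑ z ∈ OT, (A z).indicator (fun _ => (1 : ℝ)) ω := by
    intro ω
    set MM := cap (dm eJ eB eU (EE γ adj) M ω) b o c with hMM
    have hnch : ∀ z, ((range N).filter fun τ => MM.be b o z (τ + 1) ≠ MM.be b o z τ).card ≤
        c + 1 := fun z => cap_nch_le (dm eJ eB eU (EE γ adj) M ω) b o c z N
    have hev : ∀ z, ((range N).filter (ev (MM.be b o z) L)).card ≤ N / L := fun z =>
      (Nat.le_div_iff_mul_le hL).2 (ev_card _ _ _)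
    have hVt : ∀ z, ((range N).filter fun τ => MM.be b o z (τ + 1) ≠ MM.be b o z τ).card +
        ((range N).filter (ev (MM.be b o z) L)).card + 1 ≤ c + 1 + N / L + 1 := fun z => by
      have := hnch z
      have := hev z
      omega
    have hr : ∀ z, (comps (MM.be b o z) L N).card ≤ c + 1 + N / L + 1 := fun z => by
      refine (comps_card_le _ _ _).trans (le_trans ?_ (hVt z))
      exact newTimes_card _ _ _
    set Y := theDS MM b o L N (c + 1 + N / L + 1) (c + 1 + N / L + 1) (N / L) hb hr hVt hev with hY'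
    have hacc : ∀ z, (∃ i y, (Y.tr z).2.2 = some (i, y) ∧ M.output y = some false) ↔
        ω ∈ A z := by
      intro z
      have h1 := acc_iff (dm eJ eB eU (EE γ adj) M ω) b o c z N
        (fun y => M.output y = some false)
      rw [dm_be, dm_run] at h1
      exact h1
    have h := det_ineq' (E := (J × B) × C) H Y
      (fun x => ∃ i y, x.2.2 = some (i, y) ∧ M.output y = some false) adj k f hV κ₀ lamU Λ
      (1 / 60) (1 / 40 + 1 / 40)
      (by norm_num) (by norm_num) hκ₀0.le (by
        rw [hκ₀, div_le_iff₀ hcU]; linarith) hlamU hΛ hU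
      (fun a b _ => by
        have := adjU_mix γU hγU lamU hlamU hψU a b
        rw [← hadj, ← hκ₀] at this
        convert this)
      (by
        rw [hκ₀, div_le_iff₀ hcU]
        have : 1 / 60 * ((Fintype.card CU : ℝ) / Fintype.card U) * Fintype.card U =
            1 / 60 * Fintype.card CU := by field_simp
        rw [this]
        linarith) h0
      (fun z => by
        refine good_sum γ hγ Y L N k lam hlam hψ hk hV hg hkg hf τ1 hτ hY (1 / 40) (1 / 40)
          (by norm_num) (by norm_num) (by norm_num) ?_ ?_ z ?_ ?_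
        · rw [cloc]; exact hbad
        · rw [cKU]; push_cast; exact hw
        · intro j
          exact (hitD_card MM b o L N z j).trans (tim_card _ _ _ _ hL)
        · calc ∑ j, (Y.hit z j).card
              ≤ ∑ j : Fin (c + 1 + N / L + 1), (tim (MM.be b o z) L N j).card :=
                Finset.sum_le_sum fun j _ => hitD_card MM b o L N z j
            _ ≤ N := sum_tim_card _ _ _ _)
      (TF.filter fun z => ∃ i y, (Y.tr z).2.2 = some (i, y) ∧ M.output y = some false)
      (OT.filter fun z => ∃ i y, (Y.tr z).2.2 = some (i, y) ∧ M.output y = some false)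
      TF (by
        intro z
        simp only [hTF, Finset.mem_filter, Finset.mem_univ, true_and, and_comm]) (by
        intro z
        simp only [hTF, Finset.mem_filter, Finset.mem_univ, true_and]) (by
        intro z
        simp only [hOT, Finset.mem_filter, Finset.mem_univ, true_and, and_comm])
    rw [card_ind TF _ A ω (fun z _ => hacc z), card_ind OT _ A ω (fun z _ => hacc z)] at h
    have htg : Y.tg.card ≤ cX := by
      have h1 := tgD_card (D := D) (Q := Option (Fin (c + 1) × Q)) (Γ := Γ) b N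
        (c + 1 + N / L + 1) (N / L)
      have e1 : Fintype.card (Option (Fin (c + 1) × Q)) = (c + 1) * Fintype.card Q + 1 := by
        rw [Fintype.card_option, Fintype.card_prod, Fintype.card_fin]
      rw [e1] at h1
      exact h1
    have hnd : nDesc f V Y.tg.card (Fintype.card ((Bool × (J × B)) × U)) ≤
        nDesc f V cX (Fintype.card ((Bool × (J × B)) × U)) := by
      unfold nDesc
      apply mul_le_mul_of_nonneg_right _ (by positivity)
      exact_mod_cast htg
    refine le_trans ?_ h
    rw [hc1, hc2]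
    have h5 : 8 / (1 / 60) * (V : ℝ) ^ 2 * ((TF.card : ℝ) * (h0 +
        Fintype.card ((Bool × (J × B)) × U) / Real.sqrt Λ) +
        nDesc f V Y.tg.card (Fintype.card ((Bool × (J × B)) × U)) *
        (f * (2 ^ f * ((Real.exp 1 / Real.sqrt Λ) ^ h0 *
          Fintype.card (Bool × (J × B) → Perm U))))) ≤
        8 / (1 / 60) * (V : ℝ) ^ 2 * ((TF.card : ℝ) * (h0 +
        Fintype.card ((Bool × (J × B)) × U) / Real.sqrt Λ) +
        nDesc f V cX (Fintype.card ((Bool × (J × B)) × U)) *
        (f * (2 ^ f * ((Real.exp 1 / Real.sqrt Λ) ^ h0 *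
          Fintype.card (Bool × (J × B) → Perm U))))) := by
      apply mul_le_mul_of_nonneg_left _ (by positivity)
      apply add_le_add le_rfl
      exact mul_le_mul_of_nonneg_right hnd (by positivity)
    have h6 := mul_le_mul_of_nonneg_left h5 hκ₀0.le
    linarith
  -- averaging
  have hmeas : ∀ z, MeasurableSet (A z) := fun z => meas_AA M (Gr z) (hms z) (hmr z) b o N c
  have havg := avg_ineq μ OT TF A hmeas c1 c2 hdetω
  -- bounds for the probabilities
  have hp1 : ∀ z ∈ OT, μ.real (A z) ≤ 1 / 3 := by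
    intro z hz
    obtain ⟨ℓ, hℓ⟩ := (Finset.mem_filter.1 hz).2
    have hntf : ¬ (Gr z).CliqueFree 3 := by
      intro hfree
      rw [hGr] at hfree
      exact (tfree_iff_tri γ hγ adj z).1
        ((cliqueFree_iff eJ eB eU (EE γ adj) (toInp z)).1 hfree) ℓ hℓ.1
    refine le_trans ?_ (prob_tri M μ (Gr z) hntf (hms z)
      (hdet (Gr z) (hdeg (toInp z))).2.2 N)
    exact measureReal_mono Set.inter_subset_right (measure_ne_top _ _)
  have hs1 : ∑ z ∈ OT, μ.real (A z) ≤ (1 / 3 : ℝ) * OT.card := by
    calc _ ≤ ∑ _z ∈ OT, (1 / 3 : ℝ) := Finset.sum_le_sum hp1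
      _ = _ := by rw [Finset.sum_const, nsmul_eq_mul]; ring
  -- the number of inputs with one triangle
  have hot := ot_bound H adj (Fintype.card C) (Fintype.card CU) (by
    intro κ
    rw [← Finset.card_univ]
    refine Finset.card_le_card_of_injOn (fun ε => ε.2) (fun _ _ => Finset.mem_coe.2
      (Finset.mem_univ _)) ?_
    rintro ⟨⟨j, b⟩, c⟩ h1 ⟨⟨j', b'⟩, c'⟩ h2 hc
    simp only [hH, HH, Finset.coe_filter, Finset.mem_univ, true_and, Set.mem_ofPred_eq,
      if_true] at h1 h2 hc
    subst h1
    simp only [Prod.mk.injEq, true_and] at h2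
    rw [h2.1, h2.2, hc]) (adjU_col γU) (adjU_row γU)
  rw [← hOT, ← hTF] at hot
  have hot2 : (OT.card : ℝ) ≤ 20 / 19 * (κ₀ * Fintype.card (((J × B) × C) × U) * TF.card) := by
    have h1 : (OT.card : ℝ) * (19 / 20 * Fintype.card U) ≤
        (TF.card : ℝ) * Fintype.card (((J × B) × C) × U) * Fintype.card CU := by
      refine le_trans ?_ hot
      apply mul_le_mul_of_nonneg_left _ (by positivity)
      linarith
    have h2 : (OT.card : ℝ) * (19 / 20 * Fintype.card U) ≤
        (20 / 19 * (κ₀ * Fintype.card (((J × B) × C) × U) * TF.card)) *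
          (19 / 20 * Fintype.card U) := by
      refine h1.trans (le_of_eq ?_)
      rw [hκ₀]
      field_simp
    exact le_of_mul_le_mul_right h2 (by positivity)
  -- the error term
  have hloc0 : (0 : ℝ) < Fintype.card (((J × B) × C) × U) := by rw [cloc]; positivity
  have hc2le : c2 ≤ κ₀ * (1 / 20 * Fintype.card (((J × B) × C) × U) * TF.card) := by
    rw [hc2]
    apply mul_le_mul_of_nonneg_left _ hκ₀0.le
    have hnd : 0 ≤ nDesc f V cX (Fintype.card ((Bool × (J × B)) × U)) := by
      unfold nDesc; positivity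
    calc 8 / (1 / 60) * (V : ℝ) ^ 2 * ((TF.card : ℝ) * (h0 +
        Fintype.card ((Bool × (J × B)) × U) / Real.sqrt Λ) +
        nDesc f V cX (Fintype.card ((Bool × (J × B)) × U)) *
        (f * (2 ^ f * ((Real.exp 1 / Real.sqrt Λ) ^ h0 *
          Fintype.card (Bool × (J × B) → Perm U)))))
        ≤ 8 / (1 / 60) * (V : ℝ) ^ 2 * ((TF.card : ℝ) * (h0 +
        Fintype.card ((Bool × (J × B)) × U) / Real.sqrt Λ) +
        nDesc f V cX (Fintype.card ((Bool × (J × B)) × U)) *
        (f * (2 ^ f * ((Real.exp 1 / Real.sqrt Λ) ^ h0 *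
          ((Fintype.card U : ℝ) ^ (2 * (Fintype.card C * Fintype.card CU) *
        (Fintype.card J * Fintype.card B)) * TF.card))))) := by
          gcongr
      _ = TF.card * (480 * (V : ℝ) ^ 2 * ((h0 + 2 * (Fintype.card J * Fintype.card B) *
          Fintype.card U / Real.sqrt Λ) + nDesc f V cX
          (2 * (Fintype.card J * Fintype.card B) * Fintype.card U) *
        (f * (2 ^ f * ((Real.exp 1 / Real.sqrt Λ) ^ h0 *
          (Fintype.card U : ℝ) ^ (2 * (Fintype.card C * Fintype.card CU) *
            (Fintype.card J * Fintype.card B))))))) := by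
          rw [cKU]
          push_cast
          ring
      _ ≤ TF.card * (1 / 20 * (Fintype.card J * Fintype.card B * Fintype.card C *
          Fintype.card U)) := mul_le_mul_of_nonneg_left hmain hTF0.le
      _ = _ := by rw [cloc]; ring
  -- conclusion
  have hX : 0 < κ₀ * Fintype.card (((J × B) × C) × U) * TF.card := by positivity
  have hc10 : 0 ≤ c1 := by
    rw [hc1]
    apply mul_nonneg hκ₀0.le
    apply mul_nonneg (by norm_num)
    apply mul_nonneg (by norm_num) hloc0.le
  have e3 := mul_le_mul_of_nonneg_left ho hc10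
  have e4 : c1 * (1 / 2 * TF.card) = (361 / 400 * (1 / 2)) *
      (κ₀ * Fintype.card (((J × B) × C) × U) * TF.card) := by
    rw [hc1]; ring
  rw [e4] at e3
  have e5 : κ₀ * (1 / 20 * (Fintype.card (((J × B) × C) × U) : ℝ) * TF.card) =
      1 / 20 * (κ₀ * Fintype.card (((J × B) × C) × U) * TF.card) := by ring
  rw [e5] at hc2le
  nlinarith

end Pool.Agent.HR
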