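import Mathlib
import Pool.Agent.Lib_helper21.TR.Params
import Pool.Agent.Lib_helper21.HR.Combine

/-!
# The parameters
-/

set_option linter.unusedSectionVars false

open MeasureTheory

namespace Pool.Agent.HR

open Finset Equiv Pool.Agent.TS Pool.Agent.TR Pool.Agent.HM

lemma log_two_le : Real.log 2 ≤ 7 / 10 := by
  have := Real.log_two_lt_d9
  linarith

/-- The number of transcripts. -/
lemma log_cXb {D q' γ' γ S b c L Nt : ℕ} (hS : 1 ≤ S) (hb : S ≤ γ * b ^ D)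
    (h5 : 5 ≤ 2 ^ S) (hq : q' ≤ 2 ^ S) (hγ : γ' ≤ 2 ^ γ)
    (hN : Nt + 1 ≤ (2 ^ S) ^ 2) (hc : c + 1 ≤ (2 ^ S) ^ 2) :
    0 < cXb D q' γ' b c L Nt ∧ Real.log (cXb D q' γ' b c L Nt) ≤
      ((c : ℝ) + 1 + (Nt / L : ℕ) + 2) * (6 * S) + (Nt / L : ℕ) * (4 * (γ * (b : ℝ) ^ D)) := by
  obtain ⟨σ, hσ⟩ : ∃ σ : ℕ, σ = 2 ^ S := ⟨_, rfl⟩
  rw [← hσ] at h5 hq hN hc
  have hlσ : Real.log σ ≤ 7 / 10 * S := by
    rw [hσ]
    push_cast
    rw [Real.log_pow]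
    have := mul_le_mul_of_nonneg_left log_two_le (Nat.cast_nonneg (α := ℝ) S)
    linarith
  have hσ0 : 0 < σ := by omega
  have hσR : (0 : ℝ) < σ := by exact_mod_cast hσ0
  have hSR : (1 : ℝ) ≤ S := by exact_mod_cast hS
  -- the factors
  have a1 : (c + 1) * q' + 1 ≤ 2 * σ ^ 3 := by
    have h1 : (c + 1) * q' ≤ σ ^ 2 * σ := Nat.mul_le_mul hc hq
    have h2 : 1 ≤ σ ^ 3 := Nat.one_le_pow _ _ hσ0
    calc (c + 1) * q' + 1 ≤ σ ^ 2 * σ + σ ^ 3 := by omega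
      _ = 2 * σ ^ 3 := by ring
  have a2 : (c + 1) * q' + 1 ≤ σ ^ 8 := by
    refine a1.trans ?_
    calc 2 * σ ^ 3 ≤ σ ^ 5 * σ ^ 3 := by
          apply Nat.mul_le_mul_right
          calc 2 ≤ σ := by omega
            _ ≤ σ ^ 5 := Nat.le_self_pow (by norm_num) _
      _ = σ ^ 8 := by ring
  have a3 : (Nt + 1) * (((c + 1) * q' + 1) * 2) + 1 ≤ σ ^ 8 := by
    have h1 : (Nt + 1) * (((c + 1) * q' + 1) * 2) ≤ σ ^ 2 * ((2 * σ ^ 3) * 2) :=
      Nat.mul_le_mul hN (Nat.mul_le_mul_right _ a1)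
    have h2 : 1 ≤ σ ^ 5 := Nat.one_le_pow _ _ hσ0
    calc (Nt + 1) * (((c + 1) * q' + 1) * 2) + 1 ≤ σ ^ 2 * ((2 * σ ^ 3) * 2) + σ ^ 5 := by omega
      _ = 5 * σ ^ 5 := by ring
      _ ≤ σ ^ 3 * σ ^ 5 := Nat.mul_le_mul_right _ (h5.trans (Nat.le_self_pow (by norm_num) _))
      _ = σ ^ 8 := by ring
  have a4 : Nt * γ' ^ b ^ D + 1 ≤ 2 ^ (4 * (γ * b ^ D)) := by
    have h1 : γ' ^ b ^ D ≤ 2 ^ (γ * b ^ D) := by
      rw [pow_mul]
      exact Nat.pow_le_pow_left hγ _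
    have h2 : Nt * γ' ^ b ^ D ≤ σ ^ 2 * 2 ^ (γ * b ^ D) := Nat.mul_le_mul (by omega) h1
    have h3 : σ ^ 2 * 2 ^ (γ * b ^ D) = 2 ^ (2 * S + γ * b ^ D) := by
      rw [hσ, pow_add, ← pow_mul, mul_comm S 2]
    have h4 : 1 ≤ 2 ^ (2 * S + γ * b ^ D) := Nat.one_le_two_pow
    calc Nt * γ' ^ b ^ D + 1 ≤ 2 ^ (2 * S + γ * b ^ D) + 2 ^ (2 * S + γ * b ^ D) := by omega
      _ = 2 ^ (2 * S + γ * b ^ D + 1) := by ring
      _ ≤ 2 ^ (4 * (γ * b ^ D)) := Nat.pow_le_pow_right (by norm_num) (by omega)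
  have hl8 : ∀ y : ℕ, 0 < y → y ≤ σ ^ 8 → Real.log y ≤ 6 * S := by
    intro y hy0 hy
    have h1 : (y : ℝ) ≤ (σ : ℝ) ^ 8 := by exact_mod_cast hy
    have h2 := Real.log_le_log (by exact_mod_cast hy0) h1
    rw [Real.log_pow] at h2
    push_cast at h2
    linarith
  have l1 := hl8 _ (by omega) a3
  have l2 := hl8 _ (by omega) a2
  have l3 : Real.log ((Nt * γ' ^ b ^ D + 1 : ℕ) : ℝ) ≤ 4 * (γ * (b : ℝ) ^ D) := by
    have h1 : ((Nt * γ' ^ b ^ D + 1 : ℕ) : ℝ) ≤ (2 : ℝ) ^ (4 * (γ * b ^ D)) := by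
      exact_mod_cast a4
    have h2 := Real.log_le_log (by positivity) h1
    rw [Real.log_pow] at h2
    push_cast at h2
    have h3 := log_two_le
    have h4 : (0 : ℝ) ≤ 4 * (γ * (b : ℝ) ^ D) := by positivity
    have h5 : 4 * (γ * (b : ℝ) ^ D) * Real.log 2 ≤ 4 * (γ * (b : ℝ) ^ D) * 1 :=
      mul_le_mul_of_nonneg_left (by linarith) h4
    push_cast
    linarith
  refine ⟨by unfold cXb; positivity, ?_⟩
  obtain ⟨y1, hy1⟩ : ∃ y, y = (Nt + 1) * (((c + 1) * q' + 1) * 2) + 1 := ⟨_, rfl⟩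
  obtain ⟨y2, hy2⟩ : ∃ y, y = Nt * γ' ^ b ^ D + 1 := ⟨_, rfl⟩
  obtain ⟨y3, hy3⟩ : ∃ y, y = (c + 1) * q' + 1 := ⟨_, rfl⟩
  have e : ((cXb D q' γ' b c L Nt : ℕ) : ℝ) =
      (y1 : ℝ) ^ (c + 1 + Nt / L + 1) * ((y2 : ℝ) ^ (Nt / L) * y3) := by
    unfold cXb
    rw [← hy3, ← hy2]
    have : (Nt + 1) * (y3 * 2) + 1 = y1 := by rw [hy1, hy3]
    rw [this]
    push_cast
    ring
  rw [← hy1] at l1
  rw [← hy2] at l3
  rw [← hy3] at l2
  have p1 : (0 : ℝ) < y1 := by rw [hy1]; positivity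
  have p2 : (0 : ℝ) < y2 := by rw [hy2]; positivity
  have p3 : (0 : ℝ) < y3 := by rw [hy3]; positivity
  rw [e, Real.log_mul (by positivity) (by positivity), Real.log_mul (by positivity) (by positivity),
    Real.log_pow, Real.log_pow]
  have m1 := mul_le_mul_of_nonneg_left l1 (Nat.cast_nonneg (α := ℝ) (c + 1 + Nt / L + 1))
  have m2 := mul_le_mul_of_nonneg_left l3 (Nat.cast_nonneg (α := ℝ) (Nt / L))
  push_cast at m1 m2 ⊢
  calc _ ≤ ((c : ℝ) + 1 + (Nt / L : ℕ) + 1) * (6 * S) +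
        ((Nt / L : ℕ) * (4 * (γ * (b : ℝ) ^ D)) + 6 * S) := by
        apply add_le_add m1
        exact add_le_add m2 l2
    _ = _ := by ring

lemma aux_kp {k P : ℝ} (hk : 4 ≤ k) (h : k ^ 2 ≤ P) : k ≤ P := by nlinarith

lemma aux_c {b X F Nt : ℝ} (h : Nt ≤ (X + 1) * (2 * b)) :
    10 * (Nt / 20 + b * F + b) ≤ b * (X + 10 * F + 10 + 1) := by linarith

lemma aux_sig {σ Nt F c N k x : ℝ} (hσ : 4096 ≤ σ) (hk : k ≤ σ) (hN : N ≤ σ) (hN0 : 0 ≤ N)
    (h1 : 320 * Nt ≤ k * N) (h2 : 320 * F ≤ σ) (h3 : x ≤ Nt)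
    (hc : c + 1 ≤ x + 10 * F + 11) : Nt + 1 ≤ σ ^ 2 ∧ c + 1 ≤ σ ^ 2 := by
  have h4 : k * N ≤ σ * σ := mul_le_mul hk hN hN0 (by linarith)
  have h5 : 4096 * σ ≤ σ ^ 2 := by
    rw [sq]
    exact mul_le_mul_of_nonneg_right hσ (by linarith)
  have h6 : σ * σ = σ ^ 2 := by ring
  rw [h6] at h4
  constructor <;> linarith

lemma aux_chg {Nt b S P k N D ν : ℝ} (hS : 0 < S) (hP : 0 < P) (hb : b = S * P ^ 3)
    (hN : 0 ≤ N) (hk : k ≤ P) (h : 320 * Nt ≤ k * N) (hD0 : 0 < D) (hDP : D ≤ P ^ 2)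
    (hν : ν = N / D) : Nt / (2 * b) * (6 * S) ≤ 1 / 100 * ν := by
  have e1 : Nt / (2 * b) * (6 * S) = 3 * Nt / P ^ 3 := by
    rw [hb]; field_simp; ring
  rw [e1, div_le_iff₀ (by positivity)]
  have h4 : 320 * Nt ≤ P * N := by
    have := mul_le_mul_of_nonneg_right hk hN
    linarith
  have h5 : N * P ≤ ν * P ^ 3 := by
    rw [hν, div_mul_eq_mul_div, le_div_iff₀ hD0]
    calc N * P * D ≤ N * P * P ^ 2 := mul_le_mul_of_nonneg_left hDP (by positivity)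
      _ = N * P ^ 3 := by ring
  have h6 : 0 ≤ ν * P ^ 3 := by
    refine le_trans ?_ h5
    positivity
  linarith

lemma aux_S {S A hB ν P x : ℝ} (h1 : S ≤ x) (h2 : 48 * x ≤ A) (h3 : hB = A * P ^ 3)
    (hA : 0 ≤ A) (hP : 1 ≤ P) (hν : 10 ^ 12 * hB ≤ ν) :
    78 * S ≤ 1 / 100 * ν := by
  have h7 : A ≤ hB := by
    rw [h3]
    exact le_mul_of_one_le_right hA (one_le_pow₀ hP)
  linarith

open Classical in
/-- The lower bound for given primes. -/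
theorem params (p q a g t K0 pad d w : ℕ) [Fact p.Prime] [Fact q.Prime] (ht : 0 < t) (hg : 2 ≤ g)
    (hkp : (g + 2) ^ (g + 4) ≤ p) (hap : 16 * (a + 4) ^ 2 ≤ p) (hK0 : 200000000000 ≤ K0)
    (hq : 120 * (320 * ((p - 1) * p)) ^ K0 + 1 ≤ q)
    (eB : (Blk p (a + 2) × Inn p) ≃ Fin d) (eU : (Blk q 0 × Inn q) ≃ Fin w)
    {D : ℕ} (hD : 1 ≤ D)
    {Q Γ Ω : Type} [Fintype Q] [Fintype Γ] [MeasurableSpace Ω] (μ : Measure Ω)
    [IsProbabilityMeasure μ]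
    (M : RMachine (t * w + (d * w + (d * w + pad))) D Q Γ Ω)
    (dg' : Fin (t * w + (d * w + (d * w + pad))) → ℕ) (far : Reg D → Reg D → Prop) (T : ℝ)
    (F S γ : ℕ)
    (hdet : M.DetectsTriangles μ dg') (hexp : M.ExpectedCostLE μ dg' far T)
    (hfar : M.ExpectedFarLE μ dg' far F)
    (hdeg : ∀ z : Inp (Fin t) (Blk p (a + 2) × Inn p) (Blk q 0 × Inn q),
      HasDegrees (theGraph (Equiv.refl (Fin t)) eB eU pad
        (EE (gen : Gen p → Blk p (a + 2) × Inn p)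
          (adjU (gen : Gen q → Blk q 0 × Inn q))) z) dg')
    (hS : 1 ≤ S) (hγ : 1 ≤ γ) (hQ : Fintype.card Q ≤ 2 ^ S) (hΓ : Fintype.card Γ ≤ 2 ^ γ)
    (hsz : t * p ^ (a + 5) * q ^ 3 ≤ 2 ^ S)
    (hbg : 48 * (γ * (S * p ^ 3) ^ D) ≤ p ^ (a + 2))
    (hSF : 320 * (S * F * p ^ 2) ≤ t * p ^ (a + 5) * q ^ 3) :
    ((g : ℝ) + 2) * (t * (p : ℝ) ^ (a + 5) * (q : ℝ) ^ 3) ≤ 12800 * T := by
  -- cardinalities
  have cB : Fintype.card (Blk p (a + 2) × Inn p) = p ^ (a + 5) := card_BI p (a + 2)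
  have cU : Fintype.card (Blk q 0 × Inn q) = q ^ 3 := by rw [card_BI q 0]
  have cC : Fintype.card (Gen p) = (p - 1) * p := card_gen
  have cCU : Fintype.card (Gen q) = (q - 1) * q := card_gen
  have hp2 : 2 ≤ p := (Fact.out : p.Prime).two_le
  have hq2 : 2 ≤ q := (Fact.out : q.Prime).two_le
  have hp4096 : 4096 ≤ p := by
    refine le_trans ?_ hkp
    calc 4096 = (2 + 2) ^ (2 + 4) := by norm_num
      _ ≤ (g + 2) ^ (2 + 4) := Nat.pow_le_pow_left (by omega) _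
      _ ≤ (g + 2) ^ (g + 4) := Nat.pow_le_pow_right (by omega) (by omega)
  obtain ⟨Dn, hDn⟩ : ∃ Dn, Dn = (p - 1) * p := ⟨_, rfl⟩
  obtain ⟨d1, hd1⟩ : ∃ d1, d1 = (q - 1) * q := ⟨_, rfl⟩
  rw [← hDn] at cC hq
  rw [← hd1] at cCU
  have hDnR : (Dn : ℝ) = ((p : ℝ) - 1) * p := by
    rw [hDn]; push_cast [Nat.cast_sub (show 1 ≤ p by omega)]; ring
  have hd1R : (d1 : ℝ) = ((q : ℝ) - 1) * q := by
    rw [hd1]; push_cast [Nat.cast_sub (show 1 ≤ q by omega)]; ring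
  clear hDn hd1
  have hpR : (2 : ℝ) ≤ p := by exact_mod_cast hp2
  have hqR : (2 : ℝ) ≤ q := by exact_mod_cast hq2
  have hp0R : (0 : ℝ) < p := by linarith
  have hD2 : (2 : ℝ) ≤ Dn := by rw [hDnR]; nlinarith
  have hDP : (Dn : ℝ) ≤ (p : ℝ) ^ 2 := by rw [hDnR]; nlinarith
  have hPD : (p : ℝ) ^ 2 ≤ 2 * Dn := by rw [hDnR]; nlinarith
  have hd1q : (d1 : ℝ) ≤ (q : ℝ) ^ 2 := by rw [hd1R]; nlinarith
  have hd1q' : (q : ℝ) * (q - 1) ≤ d1 := by rw [hd1R]; nlinarith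
  have hd10 : (0 : ℝ) < d1 := by rw [hd1R]; nlinarith
  have hD0 : (0 : ℝ) < Dn := by linarith
  -- the number `k`
  obtain ⟨k, hk⟩ : ∃ k : ℝ, k = (g : ℝ) + 2 := ⟨_, rfl⟩
  have hgR : (2 : ℝ) ≤ g := by exact_mod_cast hg
  have hk4 : 4 ≤ k := by rw [hk]; linarith
  obtain ⟨K, hK⟩ : ∃ K : ℝ, K = ((g : ℝ) + 2) ^ (g + 2) := ⟨_, rfl⟩
  have hK1 : 1 ≤ K := by rw [hK]; exact one_le_pow₀ (by linarith)
  have hkK : k ^ 2 * K ≤ p := by
    have h1 : ((g : ℝ) + 2) ^ (g + 4) ≤ p := by exact_mod_cast hkp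
    calc k ^ 2 * K = ((g : ℝ) + 2) ^ (g + 4) := by rw [hk, hK]; ring
      _ ≤ p := h1
  have hkp' : k ≤ p := by
    exact aux_kp hk4 ((aux_kK hk4 hK1).2.2.trans hkK)
  have hA : 16 * ((a : ℝ) + 4) ^ 2 ≤ p := by exact_mod_cast hap
  have hkA : k * ((a : ℝ) + 4) ≤ p := by
    have h1 : k ^ 2 ≤ (p : ℝ) := (aux_kK hk4 hK1).2.2.trans hkK
    have h2 : ((a : ℝ) + 4) ^ 2 ≤ (p : ℝ) := by
      have : 0 ≤ ((a : ℝ) + 4) ^ 2 := sq_nonneg _
      linarith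
    have h3 : (k * ((a : ℝ) + 4)) ^ 2 ≤ (p : ℝ) ^ 2 := by
      calc (k * ((a : ℝ) + 4)) ^ 2 = k ^ 2 * ((a : ℝ) + 4) ^ 2 := by ring
        _ ≤ (p : ℝ) * (p : ℝ) := mul_le_mul h1 h2 (by positivity) (by linarith)
        _ = (p : ℝ) ^ 2 := by ring
    exact (abs_le_of_sq_le_sq' h3 (by linarith)).2
  clear hap hkp
  -- the number `V`
  obtain ⟨V, hV⟩ : ∃ V : ℕ, V = 320 * Dn := ⟨_, rfl⟩
  rw [← hV] at hq
  have hVR : (V : ℝ) = 320 * Dn := by rw [hV]; push_cast; ring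
  have hV640 : (640 : ℝ) ≤ V := by rw [hVR]; linarith
  obtain ⟨W, hW⟩ : ∃ W : ℝ, W = (V : ℝ) ^ K0 := ⟨_, rfl⟩
  have hqW : 120 * W + 1 ≤ q := by rw [hW]; exact_mod_cast hq
  have hW10 : (V : ℝ) ^ 10 ≤ W := by
    rw [hW]
    exact pow_le_pow_right₀ (by linarith) (le_trans (by norm_num) hK0)
  have hW0 : 0 < W := lt_of_lt_of_le (by positivity) hW10
  have hWlog : Real.log W = K0 * Real.log V := by rw [hW, Real.log_pow]
  clear hq hW
  obtain ⟨hs1, hs2, hs3⟩ := num_sizes hD2 hVR hW10 hqW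
  have hlV : 13 / 3 ≤ Real.log V := by
    rw [Real.le_log_iff_exp_le (by linarith)]
    have h1 : Real.exp (13 / 3) ≤ Real.exp 5 := Real.exp_le_exp.2 (by norm_num)
    have h2 : Real.exp 5 = Real.exp 1 ^ 5 := by rw [← Real.exp_nat_mul]; norm_num
    have h3 : Real.exp 1 ^ 5 ≤ (3 : ℝ) ^ 5 :=
      pow_le_pow_left₀ (Real.exp_pos _).le (by have := Real.exp_one_lt_d9; linarith) _
    linarith
  -- sizes
  obtain ⟨hB, hhB⟩ : ∃ hB : ℝ, hB = (p : ℝ) ^ (a + 5) := ⟨_, rfl⟩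
  have hhBA : hB = (p : ℝ) ^ (a + 2) * (p : ℝ) ^ 3 := by rw [hhB, ← pow_add]
  have hpB : (p : ℝ) ≤ hB := by rw [hhB]; exact le_self_pow₀ (by linarith) (by omega)
  have hB0 : 0 < hB := by linarith
  have htR : (1 : ℝ) ≤ t := by exact_mod_cast ht
  obtain ⟨N, hN⟩ : ∃ N : ℝ, N = t * hB * (q : ℝ) ^ 3 := ⟨_, rfl⟩
  have hN0 : 0 < N := by rw [hN]; positivity
  have hNq : hB * (q : ℝ) ^ 3 ≤ N := by
    rw [hN, mul_assoc]
    exact le_mul_of_one_le_left (by positivity) htR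
  have hq3 : (q : ℝ) ≤ (q : ℝ) ^ 3 := le_self_pow₀ (by linarith) (by norm_num)
  have hν1 : 10 ^ 12 * hB ≤ N / Dn := by
    rw [le_div_iff₀ hD0]
    calc 10 ^ 12 * hB * Dn = hB * (10 ^ 12 * Dn) := by ring
      _ ≤ hB * (q : ℝ) ^ 3 := mul_le_mul_of_nonneg_left (hs2.trans hq3) hB0.le
      _ ≤ N := hNq
  have hB1 : 1 ≤ hB := by linarith
  have hν2 : 10 ^ 12 ≤ N / Dn := by linarith
  have hν0 : 0 < N / Dn := by positivity
  -- the number `2 ^ S`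
  obtain ⟨σ, hσ⟩ : ∃ σ : ℕ, σ = 2 ^ S := ⟨_, rfl⟩
  have hNσ : N ≤ σ := by
    rw [hσ, hN, hhB]
    exact_mod_cast hsz
  have hσp : (4096 : ℝ) ≤ σ := by
    have h1 : (4096 : ℝ) ≤ p := by exact_mod_cast hp4096
    have h2 : (p : ℝ) ≤ N := by
      calc (p : ℝ) ≤ hB := hpB
        _ ≤ hB * (q : ℝ) ^ 3 := le_mul_of_one_le_right hB0.le (by linarith)
        _ ≤ N := hNq
    linarith
  have hpσ : (p : ℝ) ≤ σ := by
    have h2 : (p : ℝ) ≤ N := by
      calc (p : ℝ) ≤ hB := hpB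
        _ ≤ hB * (q : ℝ) ^ 3 := le_mul_of_one_le_right hB0.le (by linarith)
        _ ≤ N := hNq
    linarith
  -- the parameters
  have hk0 : 0 < k := by linarith
  have hK0' : 0 < K := by linarith
  obtain ⟨L, hL0, hL1, hL2⟩ := exists_half (hB / (2 * k * K)) (by
    rw [le_div_iff₀ (by positivity), one_mul]
    exact (aux_kK hk4 hK1).1.trans (hkK.trans hpB))
  have hL0R : (0 : ℝ) < L := by exact_mod_cast hL0
  have hL3 : 2 * k * K * L ≤ hB := by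
    rw [le_div_iff₀ (by positivity)] at hL2
    linarith
  have hkL : k * L ≤ hB := by
    refine le_trans ?_ hL3
    have : k * L * 1 ≤ k * L * (2 * K) := mul_le_mul_of_nonneg_left (by linarith) (by positivity)
    linarith
  obtain ⟨Nt, hNt0, hNt1, hNt2⟩ := exists_half (k * N / 320) (by
    rw [le_div_iff₀ (by positivity), one_mul]
    have h3 : 320 * hB ≤ N := by
      refine le_trans ?_ hNq
      rw [mul_comm]
      exact mul_le_mul_of_nonneg_left (by linarith) hB0.le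
    have h4 : N ≤ k * N := le_mul_of_one_le_left hN0.le (by linarith)
    linarith)
  have hNt0R : (0 : ℝ) < Nt := by exact_mod_cast hNt0
  obtain ⟨h0, hh00, hh01, hh02⟩ := exists_half ((N / Dn) / (3 * 10 ^ 9)) (by
    rw [le_div_iff₀ (by norm_num)]
    linarith)
  obtain ⟨f, hf0, hf1, hf2⟩ : ∃ f : ℕ, 0 < f ∧ 17 / 4 * (N / Dn) ≤ f ∧ (f : ℝ) ≤ 5 * (N / Dn) := by
    have h1 : (0 : ℝ) ≤ 5 * (N / Dn) := by positivity
    have h2 := Nat.floor_le h1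
    have h3 := Nat.lt_floor_add_one (5 * (N / (Dn : ℝ)))
    refine ⟨⌊5 * (N / (Dn : ℝ))⌋₊, ?_, by linarith, h2⟩
    apply Nat.floor_pos.2
    linarith
  have hrL : 320 * (Nt : ℝ) ≤ k * N := by
    rw [le_div_iff₀ (by positivity)] at hNt2
    linarith
  have hrL' : k * N ≤ 640 * (Nt : ℝ) := by linarith
  -- the side of the blocks and the number of block changes
  obtain ⟨b, hb⟩ : ∃ b, b = S * p ^ 3 := ⟨_, rfl⟩
  rw [← hb] at hbg
  have hb0 : 0 < b := by rw [hb]; positivity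
  have hbR : (b : ℝ) = S * (p : ℝ) ^ 3 := by rw [hb]; push_cast; ring
  have hb0R : (0 : ℝ) < b := by exact_mod_cast hb0
  have hSR : (1 : ℝ) ≤ S := by exact_mod_cast hS
  have hSb : S ≤ γ * b ^ D := by
    calc S ≤ b := by rw [hb]; exact Nat.le_mul_of_pos_right _ (by positivity)
      _ ≤ b ^ D := Nat.le_self_pow (by omega) _
      _ ≤ γ * b ^ D := Nat.le_mul_of_pos_left _ (by omega)
  obtain ⟨c, hc⟩ : ∃ c, c = Nt / (2 * b) + 10 * F + 10 := ⟨_, rfl⟩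
  have hc1 : 10 * ((Nt / 20 : ℝ) + b * F + b) ≤ b * (c + 1) := by
    have h1 : Nt < (Nt / (2 * b) + 1) * (2 * b) := by
      rw [mul_comm]
      exact Nat.lt_mul_div_succ _ (by omega)
    have h2 : (Nt : ℝ) ≤ ((Nt / (2 * b) : ℕ) + 1) * (2 * b) := by exact_mod_cast h1.le
    rw [hc]
    push_cast at h2 ⊢
    exact aux_c h2
  have hc2 : (c : ℝ) + 1 ≤ Nt / (2 * b) + 10 * F + 11 := by
    have h1 : ((Nt / (2 * b) : ℕ) : ℝ) ≤ Nt / (2 * b) := by
      refine Nat.cast_div_le.trans (le_of_eq ?_)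
      push_cast
      rfl
    rw [hc]
    push_cast at h1 ⊢
    linarith
  have hF0 : (0 : ℝ) ≤ F := Nat.cast_nonneg _
  have hSFR : 320 * ((S : ℝ) * F * (p : ℝ) ^ 2) ≤ N := by
    rw [hN, hhB]
    exact_mod_cast hSF
  have hFσ : 320 * (F : ℝ) ≤ σ := by
    have h1 : (F : ℝ) ≤ S * F * (p : ℝ) ^ 2 := by
      have h2 : (F : ℝ) ≤ S * F := le_mul_of_one_le_left hF0 hSR
      have h3 : (1 : ℝ) ≤ (p : ℝ) ^ 2 := one_le_pow₀ (by linarith)
      exact h2.trans (le_mul_of_one_le_right (by positivity) h3)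
    linarith
  obtain ⟨hN1', hc3'⟩ := aux_sig hσp (hkp'.trans hpσ) hNσ hN0.le hrL hFσ
    (show (Nt : ℝ) / (2 * b) ≤ Nt by
      apply div_le_self hNt0R.le
      have : (1 : ℝ) ≤ b := by exact_mod_cast hb0
      linarith) hc2
  have hN1 : Nt + 1 ≤ (2 ^ S) ^ 2 := by
    rw [← hσ]
    exact_mod_cast hN1'
  have hc3 : c + 1 ≤ (2 ^ S) ^ 2 := by
    rw [← hσ]
    exact_mod_cast hc3'
  obtain ⟨hX0, hXlog⟩ := log_cXb (D := D) (q' := Fintype.card Q) (γ' := Fintype.card Γ) (γ := γ)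
    (S := S) (b := b) (c := c) (L := L) (Nt := Nt) hS hSb (by
      have : 4096 ≤ 2 ^ S := by rw [← hσ]; exact_mod_cast hσp
      omega) hQ hΓ hN1 hc3
  obtain ⟨cX, hcX⟩ : ∃ cX, cX = cXb D (Fintype.card Q) (Fintype.card Γ) b c L Nt := ⟨_, rfl⟩
  rw [← hcX] at hX0 hXlog
  have hcX1 : (1 : ℝ) ≤ cX := by exact_mod_cast hX0
  have hrQ : ((1 : ℕ) : ℝ) * Real.log cX ≤ N / Dn := by
    rw [Nat.cast_one, one_mul]
    refine hXlog.trans ?_
    have hbgR : 48 * (γ * (b : ℝ) ^ D) ≤ (p : ℝ) ^ (a + 2) := by exact_mod_cast hbg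
    have hSbR : (S : ℝ) ≤ γ * (b : ℝ) ^ D := by exact_mod_cast hSb
    have hrat : ((Nt / L : ℕ) : ℝ) ≤ Nt / L := Nat.cast_div_le
    have hrat0 : (0 : ℝ) ≤ ((Nt / L : ℕ) : ℝ) := Nat.cast_nonneg _
    have h1 : ((Nt : ℝ) / L) * (48 * (γ * (b : ℝ) ^ D)) ≤ N / Dn :=
      num_rQ (k := k) (K := K) (hB := hB) (A := (p : ℝ) ^ (a + 2)) (P := p) hD0 hk0 hK0'
        hN0.le hL0R hL1 (by positivity) (by
          rw [div_le_div_iff₀ hL0R (by positivity)]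
          calc (Nt : ℝ) * (320 * L) = (320 * Nt) * L := by ring
            _ ≤ k * N * L := mul_le_mul_of_nonneg_right hrL hL0R.le) hDP hkK hp0R hhBA hbgR
    have h2 : ((Nt / L : ℕ) : ℝ) * (6 * S) + ((Nt / L : ℕ) : ℝ) * (4 * (γ * (b : ℝ) ^ D)) ≤
        10 / 48 * (N / Dn) := by
      calc ((Nt / L : ℕ) : ℝ) * (6 * S) + ((Nt / L : ℕ) : ℝ) * (4 * (γ * (b : ℝ) ^ D))
          = ((Nt / L : ℕ) : ℝ) * (6 * S + 4 * (γ * (b : ℝ) ^ D)) := by ring
        _ ≤ ((Nt : ℝ) / L) * (10 * (γ * (b : ℝ) ^ D)) := by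
            apply mul_le_mul hrat (by linarith) (by positivity) (by positivity)
        _ = 10 / 48 * (((Nt : ℝ) / L) * (48 * (γ * (b : ℝ) ^ D))) := by ring
        _ ≤ _ := mul_le_mul_of_nonneg_left h1 (by norm_num)
    have h3 : (Nt : ℝ) / (2 * b) * (6 * S) ≤ 1 / 100 * (N / Dn) :=
      aux_chg (by linarith) hp0R hbR hN0.le hkp' hrL hD0 hDP rfl
    have h4 : (S : ℝ) * F * 60 ≤ 60 / 320 * (N / Dn) := by
      have h5 : (S : ℝ) * F ≤ 1 / 320 * (N / Dn) := by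
        rw [mul_div_assoc', le_div_iff₀ hD0]
        have h6 : (S : ℝ) * F * Dn ≤ S * F * (p : ℝ) ^ 2 :=
          mul_le_mul_of_nonneg_left hDP (by positivity)
        linarith
      linarith
    have h5 : (78 : ℝ) * S ≤ 1 / 100 * (N / Dn) :=
      aux_S hSbR hbgR hhBA (by positivity) (by linarith) hν1
    have h6 : ((c : ℝ) + 1 + (Nt / L : ℕ) + 2) * (6 * S) ≤
        (Nt / (2 * b) + 10 * F + 11 + (Nt / L : ℕ) + 2) * (6 * S) :=
      mul_le_mul_of_nonneg_right (by linarith) (by positivity)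
    calc _ ≤ (Nt / (2 * b) + 10 * F + 11 + (Nt / L : ℕ) + 2) * (6 * S) +
          ((Nt / L : ℕ) : ℝ) * (4 * (γ * (b : ℝ) ^ D)) := add_le_add h6 le_rfl
      _ = (Nt : ℝ) / (2 * b) * (6 * S) + S * F * 60 + 78 * S +
          (((Nt / L : ℕ) : ℝ) * (6 * S) + ((Nt / L : ℕ) : ℝ) * (4 * (γ * (b : ℝ) ^ D))) := by
          ring
      _ ≤ _ := by linarith
  have hml : 2 * ((Dn : ℝ) * d1) * (t * hB) * (3 * Real.log q) ≤ N / Dn := by
    have := num_ml (D := Dn) (q := q) (tB := t * hB) (d1 := d1) hD0 (by linarith) (by positivity)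
      hd10.le hd1q hs1
    rwa [← hN] at this
  have hLL : (Nt : ℝ) / L * L = Nt := div_mul_cancel₀ _ hL0R.ne'
  have hmain := no_hr μ (gen : Gen p → Blk p (a + 2) × Inn p) gen_inj2
    (gen : Gen q → Blk q 0 × Inn q) gen_inj0 (Equiv.refl (Fin t)) eB eU M dg' far T F hdet hexp
    hfar
    hdeg ((((a + 2 : ℕ) : ℝ) + 2) * p) ((((0 : ℕ) : ℝ) + 2) * q) (by positivity) (by positivity)
    (fun ψ hψ => char_sum_gen ψ hψ) (fun ψ hψ => char_sum_gen ψ hψ)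
    L Nt b c (g + 2) g V f h0 hL0 hNt0 hb0 (by omega) hg le_rfl (by
      have h1 : ((g : ℝ) + 2) ^ (g + 2) ≤ V := by
        rw [← hK]
        have h2 : K ≤ k ^ 2 * K := (aux_kK hk4 hK1).2.1
        have h3 : (p : ℝ) ≤ p ^ 2 := le_self_pow₀ (by linarith) (by norm_num)
        linarith
      exact_mod_cast h1) hf0 W ((Dn : ℝ) / (k * K)) hW0 (by positivity) hc1
      (by rw [cU]; positivity)
    (by rw [Fintype.card_fin]; exact ht) (by rw [cC]; exact_mod_cast hD0)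
    (by rw [cCU]; exact_mod_cast hd10)
    (by
      rw [cCU, cU]
      push_cast
      have h1 : (120 : ℝ) ≤ q := by linarith
      calc 120 * (d1 : ℝ) ≤ q * (q : ℝ) ^ 2 := mul_le_mul h1 hd1q hd10.le (by linarith)
        _ = (q : ℝ) ^ 3 := by ring)
    (by
      rw [cCU]
      push_cast
      have h1 : (q : ℝ) * (120 * W) ≤ q * (q - 1) :=
        mul_le_mul_of_nonneg_left (by linarith) (by linarith)
      have h2 : 60 * ((0 + 2) * (q : ℝ) * W) = q * (120 * W) := by ring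
      rw [h2]
      exact h1.trans hd1q')
    (by
      rw [cC, cB]
      push_cast
      rw [← hhB, div_mul_eq_mul_div, le_div_iff₀ (by positivity)]
      have h1 := mul_le_mul_of_nonneg_left hL3 hD0.le
      have h2 : 2 * (Dn : ℝ) * L * (k * K) = Dn * (2 * k * K * L) := by ring
      rw [h2]
      exact h1)
    (by
      rw [Fintype.card_fin, cC, cB, cU]
      push_cast
      rw [← hhB, ← hk]
      have h := num_bad (P := (p : ℝ)) (D := Dn) (hB := hB) (N := N) (K := K) (k := k)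
        (A := (a : ℝ) + 4) (L := L) (r := (Nt : ℝ) / L) (by linarith) hPD hB0 hN0.le hK1
        (by linarith)
        (by have : (0 : ℝ) ≤ a := Nat.cast_nonneg a
            linarith) hkA (by
          calc 16 * ((a : ℝ) + 4) ^ 2 * (k ^ 2 * K) ≤ (p : ℝ) * (p : ℝ) :=
                mul_le_mul hA hkK (by positivity) (by linarith)
            _ = (p : ℝ) ^ 2 := by ring) hL0R hL3 (by positivity) (by rw [hLL]; exact hrL)
      have e : (a : ℝ) + 2 + 2 = a + 4 := by ring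
      have e2 : (t : ℝ) * hB * Dn * (q : ℝ) ^ 3 = N * Dn := by rw [hN]; ring
      rw [e, e2]
      rw [hLL] at h
      have e3 : (Nt : ℝ) / L * ((Dn : ℝ) / hB * (L : ℝ) ^ 2 + ((a : ℝ) + 4) * p * L) =
          ((Dn : ℝ) / hB * L + ((a : ℝ) + 4) * p) * Nt := by
        rw [show (Nt : ℝ) / L * ((Dn : ℝ) / hB * (L : ℝ) ^ 2 + ((a : ℝ) + 4) * p * L) =
          ((Dn : ℝ) / hB * L + ((a : ℝ) + 4) * p) * ((Nt : ℝ) / L * L) by ring, hLL]
      rw [e3] at h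
      exact h)
    (by
      rw [Fintype.card_fin, cC, cB, cU]
      push_cast
      rw [← hhB, ← hK, ← hk, hVR]
      have h := num_w (D := (Dn : ℝ)) (K := K) (k := k) (N := N) (L := L) (f := f) hD0 hK1
        (by linarith) (by exact_mod_cast hf0) hf1 (by linarith)
      have e2 : 8 * (2 * ((t : ℝ) * hB) * (q : ℝ) ^ 3) = 8 * (2 * N) := by rw [hN]; ring
      rw [e2]
      exact h)
    (by
      rw [cC, cCU, cU]
      push_cast
      have h1 : 40 * (Dn : ℝ) ≤ q := by linarith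
      calc 40 * ((Dn : ℝ) * d1) = (40 * Dn) * d1 := by ring
        _ ≤ q * (q : ℝ) ^ 2 := mul_le_mul h1 hd1q hd10.le (by linarith)
        _ = (q : ℝ) ^ 3 := by ring)
    (by
      rw [Fintype.card_fin, cC, cCU, cB, cU, ← hcX]
      have h := num_main (D := (Dn : ℝ)) (N := N) (V := V) (Λ := W) (h0 := h0)
        (R := nDesc f V cX (2 * (t * p ^ (a + 5)) * q ^ 3) *
          (f * (2 ^ f * ((Real.exp 1 / Real.sqrt W) ^ h0 *
            ((q ^ 3 : ℕ) : ℝ) ^ (2 * (Dn * d1) * (t * p ^ (a + 5)))))))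
        (by linarith) hN0.le hVR (by linarith) hh02 hs3 (by
          unfold nDesc
          have hprod := prod_le_one (cX : ℝ) V W ((q ^ 3 : ℕ) : ℝ)
            (2 * ((2 * (t * p ^ (a + 5)) * q ^ 3 : ℕ) : ℝ) / V) 1 f h0
            (2 * (Dn * d1) * (t * p ^ (a + 5))) hcX1 (by linarith) hW0 (by
              push_cast
              exact one_le_pow₀ (by linarith)) hf0 (by
              have hlog := num_log (ν := N / Dn) (rQ := ((1 : ℕ) : ℝ) * Real.log cX) (f := f)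
                (lV := Real.log V) (lΛ := Real.log W)
                (ml := 2 * ((Dn : ℝ) * d1) * (t * hB) * (3 * Real.log q)) (h0 := h0) (K0 := K0)
                (by positivity) hrQ hf2 hlV hml hh01 (by
                  have : ((200000000000 : ℕ) : ℝ) ≤ K0 := Nat.cast_le.2 hK0
                  refine le_trans (by norm_num) this) hWlog
              refine le_trans (le_of_eq ?_) hlog
              have e1 : Real.log (((q ^ 3 : ℕ) : ℝ)) = 3 * Real.log q := by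
                push_cast
                rw [Real.log_pow]
                norm_num
              have e2 : 2 * ((2 * (t * p ^ (a + 5)) * q ^ 3 : ℕ) : ℝ) / V = N / Dn / 80 := by
                push_cast
                rw [← hhB, hVR, hN]
                field_simp
                ring
              have e3 : ((2 * (Dn * d1) * (t * p ^ (a + 5)) : ℕ) : ℝ) =
                  2 * ((Dn : ℝ) * d1) * (t * hB) := by
                push_cast
                rw [hhB]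
              rw [e1, e2, e3])
          rw [pow_one] at hprod
          exact hprod)
      have e1 : (t : ℝ) * ((p ^ (a + 5) : ℕ) : ℝ) * (Dn : ℝ) * ((q ^ 3 : ℕ) : ℝ) = N * Dn := by
        push_cast
        rw [hN, hhB]
        ring
      have e2 : 2 * ((t : ℝ) * ((p ^ (a + 5) : ℕ) : ℝ)) * ((q ^ 3 : ℕ) : ℝ) = 2 * N := by
        push_cast
        rw [hN, hhB]
        ring
      rw [e1, e2]
      exact h)
  -- conclusion
  have e : ((g : ℝ) + 2) * (t * (p : ℝ) ^ (a + 5) * (q : ℝ) ^ 3) = k * N := by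
    rw [hk, hN, hhB]
  rw [e]
  linarith

end Pool.Agent.HR
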