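import Mathlib
import Pool.Agent.Lib_helper21.TR.Final2
import Pool.Agent.Lib_helper21.HR.Params

/-!
# The lower bound for randomised machines with an unbounded memory
-/

set_option linter.unusedSectionVars false

open MeasureTheory

namespace Pool.Agent.HR

open Finset Equiv Pool.Agent.TS Pool.Agent.TR Pool.Agent.HM

set_option synthInstance.maxSize 100000 in
/-- The lower bound for given primes and every size. -/
theorem bound_primes (p q a g K0 : ℕ) [Fact p.Prime] [Fact q.Prime] (hg : 2 ≤ g)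
    (hkp : (g + 2) ^ (g + 4) ≤ p) (hap : 16 * (a + 4) ^ 2 ≤ p) (hK0 : 200000000000 ≤ K0)
    (hq : 120 * (320 * ((p - 1) * p)) ^ K0 + 1 ≤ q) (s : ℕ)
    (hs : 16 * (p ^ (a + 7) * q ^ 5) ≤ s) (D S γ F : ℕ) (hD : 1 ≤ D) (hS : 1 ≤ S) (hγ : 1 ≤ γ)
    (hsS : s ≤ 2 ^ S) (hbg : 48 * (γ * (S * p ^ 3) ^ D) ≤ p ^ (a + 2))
    (hSF : 5120 * (S * F * p ^ 2) ≤ s) :
    ∃ (n : ℕ) (δ : Fin n → ℕ), 2 * n + ∑ v, δ v = 2 * s ∧
      ∀ (Q Γ Ω : Type) [Fintype Q] [Fintype Γ] [MeasurableSpace Ω] (μ : Measure Ω)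
        [IsProbabilityMeasure μ] (M : RMachine n D Q Γ Ω) (far : Reg D → Reg D → Prop) (T : ℝ),
        Fintype.card Q ≤ 2 ^ S → Fintype.card Γ ≤ 2 ^ γ →
        M.DetectsTriangles μ δ → M.ExpectedCostLE μ δ far T → M.ExpectedFarLE μ δ far F →
        ((g : ℝ) + 2) * s ≤ 204800 * T := by
  classical
  have hp2 : 2 ≤ p := (Fact.out : p.Prime).two_le
  have hq2 : 2 ≤ q := (Fact.out : q.Prime).two_le
  have cB : Fintype.card (Blk p (a + 2) × Inn p) = p ^ (a + 5) := card_BI p (a + 2)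
  have cU : Fintype.card (Blk q 0 × Inn q) = q ^ 3 := by rw [card_BI q 0]
  have cC : Fintype.card (Gen p) ≤ p ^ 2 := by
    rw [card_gen, sq]
    exact Nat.mul_le_mul_right _ (Nat.sub_le _ _)
  have cCU : Fintype.card (Gen q) ≤ q ^ 2 := by
    rw [card_gen, sq]
    exact Nat.mul_le_mul_right _ (Nat.sub_le _ _)
  set b := p ^ (a + 5) * q ^ 3 with hb
  have hb0 : 0 < b := by positivity
  obtain ⟨t, ht⟩ : ∃ t, t = s / (8 * b) := ⟨_, rfl⟩
  have hbs : 16 * (b * (p ^ 2 * q ^ 2)) ≤ s := by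
    have : b * (p ^ 2 * q ^ 2) = p ^ (a + 7) * q ^ 5 := by rw [hb]; ring
    rw [this]; exact hs
  have h4 : 4 ≤ p ^ 2 := by nlinarith
  have hpq : 4 ≤ p ^ 2 * q ^ 2 := h4.trans (Nat.le_mul_of_pos_right _ (by positivity))
  have hb4 : 64 * b ≤ s := by
    refine le_trans ?_ hbs
    calc 64 * b = 16 * (b * 4) := by ring
      _ ≤ 16 * (b * (p ^ 2 * q ^ 2)) := Nat.mul_le_mul_left _ (Nat.mul_le_mul_left _ hpq)
  have ht1 : t * (8 * b) ≤ s := by rw [ht]; exact Nat.div_mul_le_self _ _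
  have ht2 : s < (t + 1) * (8 * b) := by
    rw [ht, mul_comm]; exact Nat.lt_mul_div_succ _ (by positivity)
  have ht0 : 0 < t := by
    by_contra hcon
    have : t = 0 := by omega
    rw [this] at ht2
    omega
  have ht1' : 8 * (t * b) ≤ s := by
    refine le_trans (le_of_eq ?_) ht1
    ring
  have ht3 : s ≤ 16 * (t * b) := by
    have h5 : (t + 1) * (8 * b) ≤ (2 * t) * (8 * b) := Nat.mul_le_mul_right _ (by omega)
    have h6 : (2 * t) * (8 * b) = 16 * (t * b) := by ring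
    omega
  set eB : (Blk p (a + 2) × Inn p) ≃ Fin (p ^ (a + 5)) := Fintype.equivFinOfCardEq cB with heB
  set eU : (Blk q 0 × Inn q) ≃ Fin (q ^ 3) := Fintype.equivFinOfCardEq cU with heU
  set E : (Blk p (a + 2) × Inn p) × (Blk q 0 × Inn q) →
      (Blk p (a + 2) × Inn p) × (Blk q 0 × Inn q) → Prop :=
    EE (gen : Gen p → Blk p (a + 2) × Inn p) (adjU (gen : Gen q → Blk q 0 × Inn q)) with hE
  set cE := (Finset.univ.filter fun x : ((Blk p (a + 2) × Inn p) × (Blk q 0 × Inn q)) ×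
    ((Blk p (a + 2) × Inn p) × (Blk q 0 × Inn q)) => E x.1 x.2).card with hcE
  have hcEle : cE ≤ b * (p ^ 2 * q ^ 2) := by
    have h := card_EE (gen : Gen p → Blk p (a + 2) × Inn p) (gen : Gen q → Blk q 0 × Inn q)
    rw [cB, cU, ← hE] at h
    have h' : cE ≤ p ^ (a + 5) * q ^ 3 * (Fintype.card (Gen p) * Fintype.card (Gen q)) := by
      rw [hcE]; convert h
    exact h'.trans (Nat.mul_le_mul_left _ (Nat.mul_le_mul cC cCU))
  set base := t * q ^ 3 + 2 * (p ^ (a + 5) * q ^ 3) + 2 * (t * p ^ (a + 5) * q ^ 3) + cE with hbase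
  have e3 : t * p ^ (a + 5) * q ^ 3 = t * b := by rw [hb]; ring
  have hbase_le : base ≤ s := by
    have e1 : t * q ^ 3 ≤ t * b := by
      apply Nat.mul_le_mul_left
      rw [hb]
      exact Nat.le_mul_of_pos_left _ (by positivity)
    rw [hbase, e3, ← hb]
    omega
  set pad := s - base with hpad
  refine ⟨t * q ^ 3 + (p ^ (a + 5) * q ^ 3 + (p ^ (a + 5) * q ^ 3 + pad)),
    fun v => dg (Equiv.refl (Fin t)) eB eU pad E ((enc (Equiv.refl (Fin t)) eB eU pad).symm v),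
    ?_, ?_⟩
  · rw [(enc (Equiv.refl (Fin t)) eB eU pad).symm.sum_comp
      (fun x => dg (Equiv.refl (Fin t)) eB eU pad E x), sum_dg, cB, cU, ← hcE, Fintype.card_fin]
    omega
  · intro Q Γ Ω _ _ _ μ _ M far T hQ hΓ hdet hexp hfar
    have h := params p q a g t K0 pad (p ^ (a + 5)) (q ^ 3) ht0 hg hkp hap hK0 hq eB eU hD μ M _
      far T F S γ hdet hexp hfar (by
        intro z v
        obtain ⟨x, rfl⟩ := (enc (Equiv.refl (Fin t)) eB eU pad).surjective v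
        rw [adjList_graph, length_lst]
        simp only [Equiv.symm_apply_apply]
        rfl) hS hγ hQ hΓ (by rw [e3]; omega) hbg (by rw [e3]; omega)
    have h1 : (s : ℝ) ≤ 16 * (t * ((p : ℝ) ^ (a + 5) * (q : ℝ) ^ 3)) := by
      have : (s : ℝ) ≤ ((16 * (t * b) : ℕ) : ℝ) := by exact_mod_cast ht3
      rw [hb] at this
      push_cast at this
      exact this
    have h2 : (0 : ℝ) ≤ (g : ℝ) + 2 := by positivity
    calc ((g : ℝ) + 2) * s ≤ ((g : ℝ) + 2) * (16 * (t * ((p : ℝ) ^ (a + 5) * (q : ℝ) ^ 3))) :=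
          mul_le_mul_of_nonneg_left h1 h2
      _ = 16 * (((g : ℝ) + 2) * (t * (p : ℝ) ^ (a + 5) * (q : ℝ) ^ 3)) := by ring
      _ ≤ 16 * (12800 * T) := mul_le_mul_of_nonneg_left h (by norm_num)
      _ = 204800 * T := by ring

/-- The natural-number form. -/
theorem main_nat (D : ℕ) (hD : 1 ≤ D) : ∃ c : ℝ, 0 < c ∧ ∃ C ℓ₀ : ℕ, ∀ s S γ F ℓ : ℕ, ℓ₀ ≤ ℓ →
    2 ^ ℓ ≤ s → s < 2 ^ (ℓ + 1) → 1 ≤ S → 1 ≤ γ → s ≤ 2 ^ S →
    (S ^ D * γ + S * F) * ℓ ^ C ≤ s →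
    ∃ (n : ℕ) (δ : Fin n → ℕ), 2 * n + ∑ v, δ v = 2 * s ∧
      ∀ (Q Γ Ω : Type) [Fintype Q] [Fintype Γ] [MeasurableSpace Ω] (μ : Measure Ω)
        [IsProbabilityMeasure μ] (M : RMachine n D Q Γ Ω) (far : Reg D → Reg D → Prop) (T : ℝ),
        Fintype.card Q ≤ 2 ^ S → Fintype.card Γ ≤ 2 ^ γ →
        M.DetectsTriangles μ δ → M.ExpectedCostLE μ δ far T → M.ExpectedFarLE μ δ far F →
        c * s * (Real.log ((s / (S ^ D * γ + S * F) : ℕ) : ℝ) /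
          Real.log (Real.log ((s / (S ^ D * γ + S * F) : ℕ) : ℝ))) ≤ T ∧
          1 < Real.log ((s / (S ^ D * γ + S * F) : ℕ) : ℝ) ∧ 2 ≤ s / (S ^ D * γ + S * F) := by
  obtain ⟨K0, hK0⟩ : ∃ K0 : ℕ, 200000000000 ≤ K0 := ⟨_, le_rfl⟩
  obtain ⟨e, he⟩ : ∃ e : ℕ, e = 14 + 10 * K0 + 3 * D := ⟨_, rfl⟩
  have he0 : 0 < e := by omega
  obtain ⟨P0, hP0⟩ : ∃ P0 : ℕ, P0 = 4096 + 242 * 320 ^ K0 := ⟨_, rfl⟩
  refine ⟨1 / (819200 * e), by positivity, 3 * e, 2 * (P0 + 1), ?_⟩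
  intro s S γ F ℓ hℓ0 hs1 hs2 hS hγ hsS hXC
  have hℓ1 : 64 ≤ ℓ := by omega
  have hℓpos : 1 ≤ ℓ := by omega
  obtain ⟨X, hX⟩ : ∃ X, X = S ^ D * γ + S * F := ⟨_, rfl⟩
  rw [← hX] at hXC ⊢
  have hSD : S ^ D * γ ≤ X := by rw [hX]; exact Nat.le_add_right _ _
  have hSF0 : S * F ≤ X := by rw [hX]; exact Nat.le_add_left _ _
  have hX1 : 1 ≤ X := le_trans (Nat.mul_pos (Nat.pow_pos hS) hγ) hSD
  obtain ⟨x, hx⟩ : ∃ x, x = s / X := ⟨_, rfl⟩
  have hxℓ : ℓ ^ (3 * e) ≤ x := by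
    rw [hx, Nat.le_div_iff_mul_le hX1, mul_comm]
    exact hXC
  have hx0 : (2 * (P0 + 1)) ^ e ≤ x := by
    refine le_trans ?_ hxℓ
    refine (Nat.pow_le_pow_left hℓ0 e).trans (Nat.pow_le_pow_right hℓpos (by omega))
  obtain ⟨p, hp, hp1, hp2, hp3⟩ := exists_p e P0 x he0 hx0
  have : Fact p.Prime := ⟨hp⟩
  have hcube : ℓ ^ 3 ≤ 2 * p := by
    have h1 : (ℓ ^ 3) ^ e ≤ (2 * p) ^ e := by
      rw [← pow_mul]
      exact hxℓ.trans hp3
    exact (Nat.pow_le_pow_iff_left he0.ne').1 h1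
  have x2 : 1 ≤ 320 ^ K0 := Nat.one_le_pow _ _ (by norm_num)
  have b1 : 4096 ≤ p := by omega
  have b3 : 242 * 320 ^ K0 ≤ p := by omega
  have hxX : x * X ≤ s := by rw [hx]; exact Nat.div_mul_le_self _ _
  have hpX : p ^ e * X ≤ s := (Nat.mul_le_mul_right _ hp2).trans hxX
  obtain ⟨Sg, hSg⟩ : ∃ Sg, Sg = 48 * (γ * (S * p ^ 3) ^ D) := ⟨_, rfl⟩
  have hSg1 : Sg ≤ p ^ (3 * D + 1) * X := by
    have h1 : γ * (S * p ^ 3) ^ D = p ^ (3 * D) * (S ^ D * γ) := by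
      rw [mul_pow, ← pow_mul]; ring
    rw [hSg, h1]
    calc 48 * (p ^ (3 * D) * (S ^ D * γ)) ≤ p * (p ^ (3 * D) * X) :=
          Nat.mul_le_mul (by omega) (Nat.mul_le_mul_left _ hSD)
      _ = p ^ (3 * D + 1) * X := by ring
  have hSg2 : 1 ≤ Sg := by
    rw [hSg]
    have := hp.pos
    exact Nat.mul_pos (by norm_num) (Nat.mul_pos hγ (Nat.pow_pos (Nat.mul_pos hS (Nat.pow_pos this))))
  have hSgs : Sg < 2 ^ (ℓ + 1) := by
    refine lt_of_le_of_lt ?_ hs2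
    refine hSg1.trans (le_trans ?_ hpX)
    exact Nat.mul_le_mul_right _ (Nat.pow_le_pow_right hp.pos (by omega))
  obtain ⟨a, ha1, ha2, ha3⟩ := exists_a p Sg ℓ hp.two_le hSg2 hSgs
  have b2 : 16 * (a + 4) ^ 2 ≤ p := by
    refine le_trans ?_ (cube_ge hcube hℓ1)
    exact Nat.mul_le_mul_left _ (Nat.pow_le_pow_left (by omega) 2)
  have hpp : 0 < (p - 1) * p := Nat.mul_pos (by omega) (by omega)
  obtain ⟨q, hq, hq1, hq2⟩ := exists_q p K0 hpp b3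
  have : Fact q.Prime := ⟨hq⟩
  obtain ⟨g, hg1, hg2, hg3⟩ := exists_g p b1
  have hsize : 16 * (p ^ (a + 7) * q ^ 5) ≤ s := by
    refine le_trans ?_ hpX
    calc 16 * (p ^ (a + 7) * q ^ 5) ≤
        p * ((p ^ 7 * (p ^ (3 * D + 1) * X)) * (p ^ (2 * K0 + 1)) ^ 5) :=
          Nat.mul_le_mul (by omega) (Nat.mul_le_mul (ha3.trans (Nat.mul_le_mul_left _ hSg1))
            (Nat.pow_le_pow_left hq2 5))
      _ = p ^ e * X := by
          rw [he, ← pow_mul]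
          have h1 : p ^ (14 + 10 * K0 + 3 * D) =
              p * (p ^ 7 * (p ^ (3 * D + 1) * p ^ ((2 * K0 + 1) * 5))) := by
            rw [← pow_add, ← pow_add, ← pow_succ']
            congr 1
            ring
          rw [h1]
          ring
  have hSF : 5120 * (S * F * p ^ 2) ≤ s := by
    refine le_trans ?_ hpX
    have h1 : 5120 ≤ p ^ 2 := by
      calc 5120 ≤ 4096 ^ 2 := by norm_num
        _ ≤ p ^ 2 := Nat.pow_le_pow_left b1 2
    calc 5120 * (S * F * p ^ 2) ≤ p ^ 2 * (X * p ^ 2) :=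
          Nat.mul_le_mul h1 (Nat.mul_le_mul_right _ hSF0)
      _ = p ^ 4 * X := by ring
      _ ≤ p ^ e * X := Nat.mul_le_mul_right _ (Nat.pow_le_pow_right hp.pos (by omega))
  obtain ⟨n, δ, hnδ, hmain⟩ := bound_primes p q a g K0 hg1 hg2 b2 hK0 hq1 s hsize D S γ F hD hS hγ
    hsS (by rw [← hSg]; exact ha2) hSF
  refine ⟨n, δ, hnδ, fun Q Γ Ω _ _ _ μ _ M far T hQ hΓ hdet hexp hfar => ?_⟩
  have hT := hmain Q Γ Ω μ M far T hQ hΓ hdet hexp hfar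
  obtain ⟨l1, l2⟩ := log_sigma he0 hg1 hg2 hg3 hp2 hp3
  rw [← hx]
  have hll : 0 < Real.log (Real.log x) := Real.log_pos l2
  have heR : (0 : ℝ) < e := by exact_mod_cast he0
  refine ⟨?_, l2, ?_⟩
  · have h5 : Real.log x / Real.log (Real.log x) ≤ 4 * e * ((g : ℝ) + 2) := by
      rw [div_le_iff₀ hll]
      exact l1
    calc 1 / (819200 * (e : ℝ)) * s * (Real.log x / Real.log (Real.log x))
        ≤ 1 / (819200 * (e : ℝ)) * s * (4 * e * ((g : ℝ) + 2)) :=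
          mul_le_mul_of_nonneg_left h5 (by positivity)
      _ = (((g : ℝ) + 2) * s) / 204800 := by
          field_simp
          ring
      _ ≤ T := by
          rw [div_le_iff₀ (by norm_num)]
          linarith
  · refine le_trans ?_ hx0
    refine le_trans ?_ (Nat.le_self_pow he0.ne' _)
    omega

/-- The trade-off. -/
theorem main_all (D : ℕ) (hD : 1 ≤ D) : ∃ c : ℝ, 0 < c ∧ ∃ C s₀ : ℕ, ∀ s S γ F : ℕ, s₀ ≤ s →
    1 ≤ S → 1 ≤ γ → s ≤ 2 ^ S → (S ^ D * γ + S * F) * Real.log s ^ C ≤ s →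
    ∃ (n : ℕ) (δ : Fin n → ℕ), 2 * n + ∑ v, δ v = 2 * s ∧
      ∀ (Q Γ Ω : Type) [Fintype Q] [Fintype Γ] [MeasurableSpace Ω] (μ : Measure Ω)
        [IsProbabilityMeasure μ] (M : RMachine n D Q Γ Ω) (far : Reg D → Reg D → Prop) (T : ℝ),
        Fintype.card Q ≤ 2 ^ S → Fintype.card Γ ≤ 2 ^ γ →
        M.DetectsTriangles μ δ → M.ExpectedCostLE μ δ far T → M.ExpectedFarLE μ δ far F →
        c * s * Real.log (s / (S ^ D * γ + S * F)) /
          Real.log (Real.log (s / (S ^ D * γ + S * F))) ≤ T := by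
  obtain ⟨c, hc, C, ℓ₀, h⟩ := main_nat D hD
  refine ⟨c / 2, by positivity, 2 * C, max (2 ^ ℓ₀) 16, ?_⟩
  intro s S γ F hs hS hγ hsS hXC
  have hs1 : 2 ^ ℓ₀ ≤ s := (le_max_left _ _).trans hs
  have hs2 : 16 ≤ s := (le_max_right _ _).trans hs
  obtain ⟨ℓ, hℓ⟩ : ∃ ℓ, ℓ = Nat.log 2 s := ⟨_, rfl⟩
  have hl1 : 2 ^ ℓ ≤ s := by rw [hℓ]; exact Nat.pow_log_le_self 2 (by omega)
  have hl2 : s < 2 ^ (ℓ + 1) := by rw [hℓ]; exact Nat.lt_pow_succ_log_self (by norm_num) s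
  have hl3 : ℓ₀ ≤ ℓ := by
    rw [hℓ]
    exact (Nat.le_log_iff_pow_le (by norm_num) (by omega)).2 hs1
  have hsR : (16 : ℝ) ≤ s := by exact_mod_cast hs2
  have hlog2 : 2 ≤ Real.log s := by
    have h1 : Real.log 16 ≤ Real.log s := Real.log_le_log (by norm_num) hsR
    have h2 : Real.log 16 = 4 * Real.log 2 := by
      rw [show (16 : ℝ) = 2 ^ 4 by norm_num, Real.log_pow]
      norm_num
    have h3 := Real.log_two_gt_d9
    rw [h2] at h1
    linarith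
  have hℓlog : (ℓ : ℝ) ≤ Real.log s ^ 2 := by
    have h1 : ((2 : ℝ) ^ ℓ) ≤ s := by exact_mod_cast hl1
    have h2 := Real.log_le_log (by positivity) h1
    rw [Real.log_pow] at h2
    have h3 := Real.log_two_gt_d9
    have h4 : (0 : ℝ) ≤ ℓ := Nat.cast_nonneg _
    have h5 : (ℓ : ℝ) * (1 / 2) ≤ Real.log s := by
      refine le_trans ?_ h2
      exact mul_le_mul_of_nonneg_left (by linarith) h4
    nlinarith
  obtain ⟨X, hX⟩ : ∃ X, X = S ^ D * γ + S * F := ⟨_, rfl⟩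
  have hX1 : 1 ≤ X := by
    rw [hX]
    exact le_trans (Nat.mul_pos (Nat.pow_pos hS) hγ) (Nat.le_add_right _ _)
  have hXR : (X : ℝ) = S ^ D * γ + S * F := by rw [hX]; push_cast; ring
  rw [← hXR] at hXC
  have hXC' : (S ^ D * γ + S * F) * ℓ ^ C ≤ s := by
    rw [← hX]
    have h1 : ((X * ℓ ^ C : ℕ) : ℝ) ≤ s := by
      push_cast
      refine le_trans ?_ hXC
      apply mul_le_mul_of_nonneg_left _ (Nat.cast_nonneg _)
      rw [pow_mul]
      exact pow_le_pow_left₀ (Nat.cast_nonneg _) hℓlog C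
    exact_mod_cast h1
  obtain ⟨n, δ, hnδ, hmain⟩ := h s S γ F ℓ hl3 hl1 hl2 hS hγ hsS hXC'
  refine ⟨n, δ, hnδ, fun Q Γ Ω _ _ _ μ _ M far T hQ hΓ hdet hexp hfar => ?_⟩
  obtain ⟨m1, m2, m3⟩ := hmain Q Γ Ω μ M far T hQ hΓ hdet hexp hfar
  rw [← hX] at m1 m2 m3
  rw [← hXR]
  have h5 := log_compare hX1 m3 m2
  calc c / 2 * s * Real.log (s / X) / Real.log (Real.log (s / X))
      = c / 2 * s * (Real.log (s / X) / Real.log (Real.log (s / X))) := by rw [mul_div_assoc]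
    _ ≤ c / 2 * s * (2 * (Real.log ((s / X : ℕ) : ℝ) /
          Real.log (Real.log ((s / X : ℕ) : ℝ)))) := mul_le_mul_of_nonneg_left h5 (by positivity)
    _ = c * s * (Real.log ((s / X : ℕ) : ℝ) / Real.log (Real.log ((s / X : ℕ) : ℝ))) := by ring
    _ ≤ T := m1

end Pool.Agent.HR
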